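import Pool.Agent.P.MP_d06606_an.Ek

/-! Norm fragmented compact sets of functionals. -/

namespace Pool.Agent.P.MP_f49e60_an

open Filter Topology Set Pool.Agent.P.MP_d06606_an

variable {X : Type} [NormedAddCommGroup X] [NormedSpace ℝ X]
variable {K : Type} [TopologicalSpace K] [CompactSpace K] {ev : K → X →L[ℝ] ℝ}

/-- closed sets have relatively open parts of small diameter -/
def Frag (ev : K → X →L[ℝ] ℝ) : Prop :=
  ∀ D : Set K, IsClosed D → D.Nonempty → ∀ ε > 0, ∃ O, IsOpen O ∧ (O ∩ D).Nonempty ∧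
    ∀ k ∈ O ∩ D, ∀ k' ∈ O ∩ D, ∀ h, |ev k h - ev k' h| ≤ ε * ‖h‖

theorem abs_le_of_ball {φ : X →L[ℝ] ℝ} {r c : ℝ} (hr : 0 < r)
    (h : ∀ z, ‖z‖ ≤ r → φ z ≤ c * r) (z : X) : |φ z| ≤ c * ‖z‖ := by
  by_cases hz : z = 0
  · simp [hz]
  have h0 : 0 < ‖z‖ := norm_pos_iff.2 hz
  have h1 := h ((r / ‖z‖) • z) (by
    rw [norm_smul, Real.norm_of_nonneg (by positivity), div_mul_cancel₀ _ h0.ne'])
  have h2 := h (-((r / ‖z‖) • z)) (by
    rw [norm_neg, norm_smul, Real.norm_of_nonneg (by positivity), div_mul_cancel₀ _ h0.ne'])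
  rw [map_neg] at h2
  rw [map_smul, smul_eq_mul] at h1 h2
  have h3 : |r / ‖z‖ * φ z| ≤ c * r := abs_le.2 ⟨by linarith, h1⟩
  rw [abs_mul, abs_of_pos (by positivity : 0 < r / ‖z‖), div_mul_eq_mul_div, div_le_iff₀ h0] at h3
  nlinarith

theorem dent_of_frag (hev : ∀ x, Continuous fun k => ev k x) (hb : ∀ k h, |ev k h| ≤ ‖h‖)
    (hf : Frag ev) : Dent ev := by
  intro D hD hne ε hε
  obtain ⟨E, -, hE⟩ := zorn_superset_nonempty
    {E : Set K | IsClosed E ∧ E ⊆ D ∧ ∀ x, ∃ k ∈ E, ev k x = sg ev D x} (by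
      intro c hc hch hcne
      refine ⟨⋂₀ c, ⟨isClosed_sInter fun E hE => (hc hE).1, ?_, fun x => ?_⟩,
        fun s hs => sInter_subset_of_mem hs⟩
      · obtain ⟨E, hE⟩ := hcne
        exact (sInter_subset_of_mem hE).trans (hc hE).2.1
      · have : Nonempty c := hcne.to_subtype
        have h1 := IsCompact.nonempty_iInter_of_directed_nonempty_isCompact_isClosed
          (fun E : c => E.1 ∩ {k | ev k x = sg ev D x}) (by
            intro E E'
            rcases hch.total E.2 E'.2 with h | h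
            · exact ⟨E, subset_rfl, inter_subset_inter_left _ h⟩
            · exact ⟨E', inter_subset_inter_left _ h, subset_rfl⟩)
          (fun E => by
            obtain ⟨k, hk, h⟩ := (hc E.2).2.2 x
            exact ⟨k, hk, h⟩)
          (fun E => ((hc E.2).1.inter (isClosed_eq (hev x) continuous_const)).isCompact)
          (fun E => (hc E.2).1.inter (isClosed_eq (hev x) continuous_const))
        obtain ⟨k, hk⟩ := h1
        rw [mem_iInter] at hk
        obtain ⟨E, hE⟩ := hcne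
        exact ⟨k, fun E' hE' => (hk ⟨E', hE'⟩).1, (hk ⟨E, hE⟩).2⟩) D
    ⟨hD, subset_rfl, fun x => by
      obtain ⟨k, hk, h, -⟩ := sg_spec hev hD hne x
      exact ⟨k, hk, h.symm⟩⟩
  obtain ⟨hE1, hE2, hE3⟩ := hE.prop
  obtain ⟨O, hO, ⟨t, ht⟩, hs⟩ := hf E hE1 (let ⟨k, hk, _⟩ := hE3 0; ⟨k, hk⟩) (ε / 4) (by linarith)
  have hcl : IsClosed (E \ O) := hE1.sdiff hO
  have h1 : ∃ x₀, ∀ k ∈ E \ O, ev k x₀ ≠ sg ev D x₀ := by
    by_contra hc
    push Not at hc
    have h2 := hE.le_of_le (y := E \ O) ⟨hcl, sdiff_subset.trans hE2, hc⟩ sdiff_subset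
    exact (h2 ht.2).2 ht.1
  obtain ⟨x₀, h1⟩ := h1
  have h2 : ∃ ρ > 0, ∀ k ∈ E \ O, ev k x₀ ≤ sg ev D x₀ - ρ := by
    rcases (E \ O).eq_empty_or_nonempty with h | h
    · exact ⟨1, one_pos, by simp [h]⟩
    · obtain ⟨k, hk, -, h3⟩ := sg_spec hev hcl h x₀
      have h4 := lt_of_le_of_ne (le_sg hev hD (hE2 hk.1) x₀) (h1 k hk)
      exact ⟨sg ev D x₀ - ev k x₀, by linarith, fun k' hk' => by linarith [h3 k' hk']⟩
  obtain ⟨ρ, hρ, h2⟩ := h2
  obtain ⟨k₀, hk₀, e₀⟩ := hE3 x₀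
  have hk₀O : k₀ ∈ O := by
    by_contra hc
    linarith [h2 k₀ ⟨hk₀, hc⟩]
  have key : ∀ k ∈ D, sg ev D x₀ - ε / 4 * (ρ / 4) ≤ ev k x₀ → ∀ h,
      |ev k h - ev k₀ h| ≤ ε / 2 * ‖h‖ := by
    intro k hk hk' h
    refine abs_le_of_ball (φ := ev k - ev k₀) (r := ρ / 4) (by linarith) (fun z hz => ?_) h
    obtain ⟨k₁, hk₁, e₁⟩ := hE3 (x₀ + z)
    have a1 := le_sg hev hD (hE2 hk₀) (x₀ + z)
    have a2 := le_sg hev hD hk (x₀ + z)
    have a3 := le_sg hev hD (hE2 hk₁) x₀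
    rw [map_add] at e₁ a1 a2
    have b1 := abs_le.1 (hb k₀ z)
    have b2 := abs_le.1 (hb k₁ z)
    have hk₁O : k₁ ∈ O := by
      by_contra hc
      linarith [h2 k₁ ⟨hk₁, hc⟩, b1.1, b2.2]
    have b3 := abs_le.1 (hs k₁ ⟨hk₁O, hk₁⟩ k₀ ⟨hk₀O, hk₀⟩ z)
    have b4 : ε / 4 * ‖z‖ ≤ ε / 4 * (ρ / 4) := mul_le_mul_of_nonneg_left hz (by linarith)
    rw [sub_apply]
    linarith [b3.2]
  refine ⟨x₀, ε / 4 * (ρ / 4), by positivity, fun k hk k' hk' a b h => ?_⟩
  have c1 := abs_le.1 (key k hk a h)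
  have c2 := abs_le.1 (key k' hk' b h)
  rw [abs_le]
  constructor <;> linarith [c1.1, c1.2, c2.1, c2.2]

/-- zero is in the closure of `A` for pointwise convergence on `K` -/
def App (ev : K → X →L[ℝ] ℝ) (A : Set X) : Prop :=
  ∀ F : Finset K, ∀ η > 0, ∃ a ∈ A, ∀ k ∈ F, |ev k a| < η

/-- convex sets can be made small on `D` -/
def Good (ev : K → X →L[ℝ] ℝ) (ε : ℝ) (D : Set K) : Prop :=
  ∀ A : Set X, Convex ℝ A → (∀ a ∈ A, ‖a‖ ≤ 1) → App ev A → ∀ η > 0,
    App ev (A ∩ {a | ∀ k ∈ D, |ev k a| ≤ ε + η})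

omit [TopologicalSpace K] [CompactSpace K] in
theorem convex_small (D : Set K) (c : ℝ) : Convex ℝ {a : X | ∀ k ∈ D, |ev k a| ≤ c} := by
  intro x hx y hy s t hs ht hst k hk
  have h1 := hx k hk
  have h2 := hy k hk
  rw [map_add, map_smul, map_smul, smul_eq_mul, smul_eq_mul]
  calc |s * ev k x + t * ev k y| ≤ |s * ev k x| + |t * ev k y| := abs_add_le _ _
    _ = s * |ev k x| + t * |ev k y| := by rw [abs_mul, abs_mul, abs_of_nonneg hs, abs_of_nonneg ht]
    _ ≤ s * c + t * c := by gcongr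
    _ = c := by rw [← add_mul, hst, one_mul]

omit [TopologicalSpace K] [CompactSpace K] in
theorem Good.mono {ε : ℝ} {D D' : Set K} (h : Good ev ε D') (hD : D ⊆ D') : Good ev ε D := by
  intro A h1 h2 h3 η hη F η' hη'
  obtain ⟨a, ha, h4⟩ := h A h1 h2 h3 η hη F η' hη'
  exact ⟨a, ⟨ha.1, fun k hk => ha.2 k (hD hk)⟩, h4⟩

omit [TopologicalSpace K] [CompactSpace K] in
theorem Good.union {ε : ℝ} {D D' : Set K} (h : Good ev ε D) (h' : Good ev ε D') :
    Good ev ε (D ∪ D') := by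
  intro A h1 h2 h3 η hη F η' hη'
  obtain ⟨a, ha, h4⟩ := h' _ (h1.inter (convex_small D (ε + η))) (fun a ha => h2 a ha.1)
    (h A h1 h2 h3 η hη) η hη F η' hη'
  exact ⟨a, ⟨ha.1.1, fun k hk => hk.elim (ha.1.2 k) (ha.2 k)⟩, h4⟩

omit [CompactSpace K] in
theorem Good.step (hev : ∀ x, Continuous fun k => ev k x) (hb : ∀ k h, |ev k h| ≤ ‖h‖) {ε : ℝ}
    (hε : 0 < ε) {D V : Set K} (hD : IsClosed D) {t : K}
    (hV : ∀ k ∈ V, ∀ h, |ev k h - ev t h| ≤ ε * ‖h‖)
    (hG : ∀ E, IsClosed E → E ⊆ D \ V → Good ev ε E) : Good ev ε D := by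
  classical
  intro A h1 h2 h3 η hη F η' hη'
  have key : ∀ n : ℕ, ∃ (y : X) (E : Set K), IsClosed E ∧ E ⊆ D \ V ∧
      (∀ b ∈ A, (1 / (n + 1) : ℝ) • (y + b) ∈ A) ∧ (∀ k ∈ F, |ev k y| ≤ n * η') ∧
      (∀ k ∈ D, |ev k y| ≤ n * (ε + η / 2) + 1) ∧
      ∀ k ∈ D, k ∉ E → |ev k y| ≤ n * (ε + η / 2) := by
    intro n
    induction n with
    | zero => exact ⟨0, ∅, isClosed_empty, empty_subset _, by simp, by simp, by simp, by simp⟩
    | succ n ih =>
      obtain ⟨y, E, e1, e2, e3, e4, e5, e6⟩ := ih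
      obtain ⟨a, ⟨ha, ha1⟩, ha2⟩ := hG E e1 e2 A h1 h2 h3 (η / 2) (by linarith) (insert t F)
        (min η' (η / 2)) (lt_min hη' (by linarith))
      have hy : ∀ k, |ev k (y + a)| ≤ |ev k y| + |ev k a| := fun k => by
        rw [map_add]; exact abs_add_le _ _
      have ha3 : ∀ k, |ev k a| ≤ 1 := fun k => (hb k a).trans (h2 a ha)
      refine ⟨y + a, E ∪ D ∩ {k | ε + η / 2 ≤ |ev k a|},
        e1.union (hD.inter (isClosed_le continuous_const (hev a).abs)), ?_, fun b hb' => ?_,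
        fun k hk => ?_, fun k hk => ?_, fun k hk hk' => ?_⟩
      · refine union_subset e2 fun k hk => ⟨hk.1, fun hkV => ?_⟩
        have b1 := hV k hkV a
        have b2 := (ha2 t (Finset.mem_insert_self _ _)).trans_le (min_le_right _ _)
        have b3 : ε + η / 2 ≤ |ev k a| := hk.2
        have b4 : |ev k a| ≤ |ev k a - ev t a| + |ev t a| := by
          simpa using abs_add_le (ev k a - ev t a) (ev t a)
        have b5 : ε * ‖a‖ ≤ ε := by nlinarith [h2 a ha]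
        linarith
      · have b1 := h1 (e3 a ha) hb' (a := (n + 1) / (n + 2)) (b := 1 / (n + 2)) (by positivity)
          (by positivity) (by field_simp; ring)
        convert b1 using 1
        push_cast
        rw [smul_smul, smul_add (1 / ((n : ℝ) + 1 + 1))]
        congr 2
        · field_simp; ring
        · ring
      · have b1 := (ha2 k (Finset.mem_insert_of_mem hk)).trans_le (min_le_left _ _)
        push_cast
        linarith [hy k, e4 k hk]
      · push_cast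
        by_cases hkE : k ∈ E
        · linarith [hy k, e5 k hk, ha1 k hkE]
        · linarith [hy k, e6 k hk hkE, ha3 k]
      · have b1 : k ∉ E := fun h => hk' (Or.inl h)
        have b2 : |ev k a| ≤ ε + η / 2 := by
          by_contra h
          exact hk' (Or.inr ⟨hk, (not_le.1 h).le⟩)
        push_cast
        linarith [hy k, e6 k hk b1]
  obtain ⟨n, hn⟩ := exists_nat_gt (4 / η)
  obtain ⟨y, E, -, -, e3, e4, e5, -⟩ := key n
  obtain ⟨b, hb1, hb2⟩ := h3 F η' hη'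
  have hz : ∀ k, |ev k ((1 / (n + 1) : ℝ) • (y + b))| ≤ (|ev k y| + |ev k b|) / (n + 1) := by
    intro k
    rw [map_smul, map_add, smul_eq_mul, abs_mul, abs_of_pos (by positivity : (0 : ℝ) < 1 / (n + 1)),
      one_div, ← div_eq_inv_mul]
    exact div_le_div_of_nonneg_right (abs_add_le _ _) (by positivity)
  refine ⟨_, ⟨e3 b hb1, fun k hk => (hz k).trans ?_⟩, fun k hk => (hz k).trans_lt ?_⟩
  · rw [div_le_iff₀ (by positivity)]
    rw [div_lt_iff₀ hη] at hn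
    have b1 := (hb k b).trans (h2 b hb1)
    nlinarith [e5 k hk]
  · rw [div_lt_iff₀ (by positivity)]
    linarith [e4 k hk, hb2 k hk]

theorem good_univ [T2Space K] (hev : ∀ x, Continuous fun k => ev k x)
    (hb : ∀ k h, |ev k h| ≤ ‖h‖) (hf : Frag ev) {ε : ℝ} (hε : 0 < ε) : Good ev ε univ := by
  let G : Set K := {t | ∃ D ∈ 𝓝 t, Good ev ε D}
  have hG : IsOpen G := by
    rw [isOpen_iff_mem_nhds]
    rintro t ⟨D, hD, h⟩
    filter_upwards [eventually_mem_nhds_iff.2 hD] with s hs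
    exact ⟨D, hs, h⟩
  have hc : ∀ E, IsClosed E → E ⊆ G → Good ev ε E := by
    intro E hE hEG
    refine hE.isCompact.induction_on (p := Good ev ε) ?_ (fun s t hst h => h.mono hst)
      (fun s t => Good.union) fun t ht => ?_
    · intro A h1 h2 h3 η hη F η' hη'
      obtain ⟨a, ha, h4⟩ := h3 F η' hη'
      exact ⟨a, ⟨ha, fun k hk => absurd hk (notMem_empty k)⟩, h4⟩
    · obtain ⟨D, hD, h⟩ := hEG ht
      exact ⟨D, mem_nhdsWithin_of_mem_nhds hD, h⟩
  refine hc univ isClosed_univ fun t₀ _ => ?_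
  by_contra h₀
  obtain ⟨O, hO, ⟨t, ht⟩, hs⟩ := hf Gᶜ hG.isClosed_compl ⟨t₀, h₀⟩ ε hε
  obtain ⟨D, hD, hD1, hD2⟩ := exists_mem_nhds_isClosed_subset (hO.mem_nhds ht.1)
  refine ht.2 ⟨D, hD, Good.step hev hb hε hD1 (V := O ∩ Gᶜ) (t := t)
    (fun k hk => hs k hk t ht) fun E hE hE' => hc E hE fun k hk => ?_⟩
  by_contra h
  exact (hE' hk).2 ⟨hD2 (hE' hk).1, h⟩

/-- on the unit ball every functional is controlled by finitely many points of `K` -/
theorem exists_control [T2Space K] (hev : ∀ x, Continuous fun k => ev k x)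
    (hb : ∀ k h, |ev k h| ≤ ‖h‖) (hf : Frag ev) (hn : ∀ x, ∃ k, ‖x‖ ≤ ev k x)
    (g : X →L[ℝ] ℝ) {ε : ℝ} (hε : 0 < ε) : ∃ F : Finset K, ∃ η > 0, ∀ y, ‖y‖ ≤ 1 →
      (∀ k ∈ F, |ev k y| < η) → g y < ε := by
  by_contra hc
  push Not at hc
  have h0 : 0 < ‖g‖ + 1 := by positivity
  have h1 : 0 < ε / (2 * (‖g‖ + 1)) := by positivity
  obtain ⟨a, ⟨ha, ha'⟩, -⟩ := good_univ hev hb hf h1 {y | ‖y‖ ≤ 1 ∧ ε ≤ g y} (by
      have h2 : Convex ℝ {y : X | ‖y‖ ≤ 1} := by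
        simpa [Metric.closedBall] using convex_closedBall (0 : X) 1
      exact h2.inter (convex_halfSpace_ge g.isLinear ε))
    (fun a ha => ha.1) (fun F η hη => by
      obtain ⟨y, h2, h3, h4⟩ := hc F η hη
      exact ⟨y, ⟨h2, h4⟩, h3⟩) _ h1 ∅ 1 one_pos
  obtain ⟨k, hk⟩ := hn a
  have h2 := hk.trans ((le_abs_self _).trans (ha' k (mem_univ _)))
  have h3 : g a ≤ ‖g‖ * ‖a‖ := (le_abs_self _).trans (g.le_opNorm a)
  have h4 : ε / (2 * (‖g‖ + 1)) + ε / (2 * (‖g‖ + 1)) = ε / (‖g‖ + 1) := by field_simp; ring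
  rw [h4, le_div_iff₀ h0] at h2
  have h5 : 0 < ‖a‖ := by
    rw [norm_pos_iff]
    rintro rfl
    have := ha.2
    rw [map_zero] at this
    linarith
  nlinarith [ha.2]

theorem bump_of_frag [Nonempty K] (hev : ∀ x, Continuous fun k => ev k x)
    (hb : ∀ k h, |ev k h| ≤ ‖h‖) (hf : Frag ev) (hn : ∀ x, ∃ k, ‖x‖ ≤ ev k x) :
    ∃ g : X → ℝ, ContDiff ℝ 1 g ∧ (∃ L, LipschitzWith L g) ∧ g ≠ 0 ∧
      Bornology.IsBounded (Function.support g) := by
  obtain ⟨G, h1, h2, h3⟩ := exists_approx hev hb (dent_of_frag hev hb hf) one_pos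
  have hs : ∀ x, sg ev univ x = ‖x‖ := fun x => by
    apply le_antisymm
    · obtain ⟨k, -, h, -⟩ := sg_spec hev isClosed_univ univ_nonempty x
      exact h ▸ (le_abs_self _).trans (hb k x)
    · obtain ⟨k, hk⟩ := hn x
      exact hk.trans (le_sg hev isClosed_univ (mem_univ k) x)
  simp only [hs] at h1
  refine ⟨fun x => -1 * Th (G x) + 2, contDiff_of_LA fun x => ?_, ⟨10, ?_⟩, fun h0 => ?_, ?_⟩
  · obtain ⟨ξ, hξ⟩ := h3 x
    obtain ⟨f', -, hf'⟩ := Th_strict (G x)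
    exact ⟨_, (((hξ.comp hf').smul (-1)).add (LA.const 2 x)).mono (by simp)⟩
  · refine LipschitzWith.of_dist_le_mul fun y z => ?_
    have a := Th_lip (G y) (G z)
    have b := h2 y z
    rw [Real.dist_eq, dist_eq_norm, abs_sub_comm]
    have e : -1 * Th (G z) + 2 - (-1 * Th (G y) + 2) = Th (G y) - Th (G z) := by ring
    rw [e]
    push_cast
    linarith
  · have h4 := congrFun h0 0
    simp only [Pi.zero_apply] at h4
    rw [Th_of_nonpos (by simpa using (h1 0).2)] at h4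
    norm_num at h4
  · refine (Metric.isBounded_closedBall (x := (0 : X)) (r := 3)).subset fun x hx => ?_
    by_contra hc
    have h4 : 3 < ‖x‖ := by simpa using hc
    exact hx (by simp only; rw [Th_of_ge (by linarith [(h1 x).1])]; norm_num)

end Pool.Agent.P.MP_f49e60_an
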