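import Pool.Agent.P.MP_f49e60_an.Space

/-! No equivalent norm with the intersection property. -/

namespace Pool.Agent.P.MP_f49e60_an

open Filter Topology Set

theorem exists_fiber {I C : Type} [Countable C] {J : Set I} (hJ : ¬ J.Countable) (φ : I → C) :
    ∃ v, ¬ {β | β ∈ J ∧ φ β = v}.Countable := by
  by_contra h
  push Not at h
  exact hJ ((countable_iUnion h).mono fun β hβ => by simpa using hβ)

theorem exists_rec {I P : Type} [LinearOrder I] [WellFoundedLT I] (hI : ∀ i : I, (Iio i).Countable)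
    (R : I → Set P → P → Prop) (h : ∀ i S, S.Countable → ∃ p, R i S p) [Nonempty P] :
    ∃ p : I → P, ∀ i, R i (p '' Iio i) (p i) := by
  choose! st hst using h
  let p : I → P := (wellFounded_lt (α := I)).fix fun i r => st i (range fun j : Iio i => r j.1 j.2)
  have hp : ∀ i, p i = st i (p '' Iio i) := fun i => by
    rw [image_eq_range]
    exact WellFounded.fix_eq _ _ _
  exact ⟨p, fun i => hp i ▸ hst i _ ((hI i).image p)⟩

section general

variable {X : Type} [NormedAddCommGroup X] [NormedSpace ℝ X]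

theorem exists_norming (N : Seminorm ℝ X) {b : ℝ} (hb : ∀ x, N x ≤ b * ‖x‖) {u : X}
    (hu : N u = 1) : ∃ g : X →L[ℝ] ℝ, g u = 1 ∧ ∀ y, g y ≤ N y := by
  have h0 : u ≠ 0 := by
    rintro rfl
    simp at hu
  obtain ⟨g, h1, h2⟩ := exists_extension_of_le_sublinear (LinearPMap.mkSpanSingleton u (1 : ℝ) h0) N
    (fun r hr x => by simp [map_smul_eq_mul, abs_of_pos hr]) (map_add_le_add N) (by
      rintro ⟨x, hx⟩
      obtain ⟨r, rfl⟩ := Submodule.mem_span_singleton.1 hx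
      rw [LinearPMap.mkSpanSingleton'_apply]
      simp [map_smul_eq_mul, hu, le_abs_self])
  refine ⟨g.mkContinuous b fun x => (N.abs_le_of_le h2 x).trans (hb x), ?_, h2⟩
  exact (h1 ⟨u, Submodule.mem_span_singleton_self u⟩).trans
    (LinearPMap.mkSpanSingleton_apply ℝ ℝ h0 1)

/-- the intersection property gives a long half separated family -/
theorem exists_family {I : Type} [LinearOrder I] [WellFoundedLT I]
    (hI : ∀ i : I, (Iio i).Countable) (hX : ¬ TopologicalSpace.SeparableSpace X)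
    (N : Seminorm ℝ X) {a b : ℝ} (ha : 0 < a) (hab : ∀ x, a * ‖x‖ ≤ N x ∧ N x ≤ b * ‖x‖)
    (hM : ∀ C : Set X, Convex ℝ C → IsClosed C → Bornology.IsBounded C → ∀ z : X, z ∉ C →
      ∃ x : X, ∃ r : ℝ, C ⊆ {y : X | N (y - x) ≤ r} ∧ r < N (z - x)) :
    ∃ (u : I → X) (g : I → X →L[ℝ] ℝ) (δ : I → ℝ), (∀ i, ‖u i‖ ≤ a⁻¹ ∧ g i (u i) = 1 ∧ 0 < δ i) ∧
      ∀ i j, i < j → g i (u j) ≤ 1 - δ j := by
  have hN : Continuous N := by
    refine Seminorm.continuous_of_le (q := (Real.toNNReal b) • normSeminorm ℝ X) ?_ fun x => ?_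
    · exact continuous_norm.const_smul (Real.toNNReal b)
    · exact (hab x).2.trans (mul_le_mul_of_nonneg_right (Real.le_coe_toNNReal b) (norm_nonneg x))
  obtain ⟨p, hp⟩ := exists_rec (P := X × (X →L[ℝ] ℝ) × ℝ) hI
    (fun _ S q => (N q.1 = 1 ∧ q.2.1 q.1 = 1 ∧ ∀ y, q.2.1 y ≤ N y) ∧ 0 < q.2.2 ∧
      ∀ s ∈ S, (N s.1 = 1 ∧ s.2.1 s.1 = 1 ∧ ∀ y, s.2.1 y ≤ N y) → s.2.1 q.1 ≤ 1 - q.2.2) (by
    intro _ S hS
    let Y := (Submodule.span ℝ (Prod.fst '' S)).topologicalClosure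
    obtain ⟨z₀, hz₀⟩ : ∃ z, z ∉ Y := by
      by_contra h
      push Not at h
      refine hX (TopologicalSpace.isSeparable_univ_iff.1 ?_)
      exact (hS.image Prod.fst).isSeparable.span.closure.mono fun z _ => h z
    have h0 : 0 < 2 * (N z₀ + 1) := by positivity
    set z := (2 * (N z₀ + 1))⁻¹ • z₀ with hz
    have hzY : z ∉ Y := fun h => hz₀ ((Y.smul_mem_iff (inv_ne_zero h0.ne')).1 h)
    have hzN : N z ≤ 1 / 2 := by
      rw [hz, map_smul_eq_mul, Real.norm_of_nonneg (by positivity), inv_mul_le_iff₀ h0]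
      linarith
    obtain ⟨x, r, h1, h2⟩ := hM ((Y : Set X) ∩ {y | N y ≤ 1})
      (Y.convex.inter (by simpa [Seminorm.closedBall] using N.convex_closedBall 0 1))
      ((Submodule.isClosed_topologicalClosure _).inter (isClosed_le hN continuous_const))
      ((Metric.isBounded_closedBall (x := (0 : X)) (r := a⁻¹)).subset fun y hy => by
        have h3 : N y ≤ 1 := hy.2
        rw [mem_closedBall_zero_iff, inv_eq_one_div, le_div_iff₀ ha]
        linarith [(hab y).1]) z fun h => hzY h.1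
    have h3 : N (0 - x) ≤ r := h1 ⟨Y.zero_mem, by simp⟩
    have h4 : 0 < N (z - x) := (((apply_nonneg N _).trans h3).trans_lt h2)
    have h5 : N ((N (z - x))⁻¹ • (z - x)) = 1 := by
      rw [map_smul_eq_mul, Real.norm_of_nonneg (by positivity), inv_mul_cancel₀ h4.ne']
    obtain ⟨g, h6, h7⟩ := exists_norming N (fun x => (hab x).2) h5
    refine ⟨(_, g, (2 * N (z - x))⁻¹), ⟨h5, h6, h7⟩, by positivity, fun s hs hs' => ?_⟩
    have h8 : N (s.1 - x) ≤ r := h1 ⟨Submodule.le_topologicalClosure _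
      (Submodule.subset_span ⟨s, hs, rfl⟩), hs'.1.le⟩
    have h9 := hs'.2.2 (s.1 - x)
    have h10 := hs'.2.2 z
    rw [map_sub, hs'.2.1] at h9
    simp only [map_smul, map_sub, smul_eq_mul]
    rw [inv_mul_le_iff₀ h4]
    have h11 : N (z - x) * (1 - (2 * N (z - x))⁻¹) = N (z - x) - 1 / 2 := by field_simp
    linarith)
  refine ⟨fun i => (p i).1, fun i => (p i).2.1, fun i => (p i).2.2, fun i =>
    ⟨?_, (hp i).1.2.1, (hp i).2.1⟩, fun i j hij => (hp j).2.2 _ ⟨i, hij, rfl⟩ (hp i).1⟩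
  rw [inv_eq_one_div, le_div_iff₀ ha]
  linarith [(hab (p i).1).1, (hp i).1.1]

theorem floor_close {x y ρ : ℝ} (hρ : 0 < ρ) (h : ⌊x / ρ⌋ = ⌊y / ρ⌋) : |x - y| < ρ := by
  have := Int.abs_sub_lt_one_of_floor_eq_floor h
  rwa [← sub_div, abs_div, abs_of_pos hρ, div_lt_one hρ] at this

theorem not_mip {I Z : Type} [LinearOrder I] [WellFoundedLT I] [Uncountable I]
    [TopologicalSpace Z] [CompactSpace Z] [T2Space Z] {ev : Z → X →L[ℝ] ℝ}
    (hI : ∀ i : I, (Iio i).Countable) (hX : ¬ TopologicalSpace.SeparableSpace X)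
    (hev : ∀ x, Continuous fun k => ev k x) (hb : ∀ k h, |ev k h| ≤ ‖h‖) (hf : Frag ev)
    (hn : ∀ x, ∃ k, ‖x‖ ≤ ev k x)
    (hs : ∀ (m : ℕ) (J : Set I), ¬ J.Countable → ∀ (k : I → Fin m → Z) (u : I → X), ∀ η > 0,
      ∃ α ∈ J, ∃ β ∈ J, α < β ∧ ∀ i, |ev (k α i) (u β) - ev (k β i) (u β)| < η) :
    ¬ ∃ N : Seminorm ℝ X,
      (∃ a b : ℝ, 0 < a ∧ 0 < b ∧ ∀ x : X, a * ‖x‖ ≤ N x ∧ N x ≤ b * ‖x‖) ∧
      ∀ C : Set X, Convex ℝ C → IsClosed C → Bornology.IsBounded C → ∀ z : X, z ∉ C →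
        ∃ x : X, ∃ r : ℝ, C ⊆ {y : X | N (y - x) ≤ r} ∧ r < N (z - x) := by
  rintro ⟨N, ⟨a, b, ha, -, hab⟩, hM⟩
  obtain ⟨u, g, δ, h1, h2⟩ := exists_family hI hX N ha hab hM
  have hZ : Nonempty Z := let ⟨k, _⟩ := hn 0; ⟨k⟩
  choose n₁ hn₁ using fun i => exists_nat_one_div_lt (h1 i).2.2
  obtain ⟨n₀, hJ₀⟩ := exists_fiber not_countable_univ n₁
  set d : ℝ := 1 / (n₀ + 1) with hd
  have hd0 : 0 < d := by positivity
  choose F η hη hF using fun i => exists_control hev hb hf hn (g i)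
    (show 0 < a / 2 * d by positivity)
  choose n₂ hn₂ using fun i => exists_nat_one_div_lt (hη i)
  obtain ⟨⟨m, n₃⟩, hJ₁⟩ := exists_fiber hJ₀ fun i => ((F i).card, n₂ i)
  set e : ℝ := 1 / (n₃ + 1) / a with he
  have he0 : 0 < e := by positivity
  have h3 : ∀ i, ∃ k : Fin m → Z, (F i).card = m → ∀ z ∈ F i, ∃ j, k j = z := by
    intro i
    by_cases h : (F i).card = m
    · exact ⟨fun j => ((F i).equivFinOfCardEq h).symm j, fun _ z hz =>
        ⟨(F i).equivFinOfCardEq h ⟨z, hz⟩, by simp⟩⟩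
    · exact ⟨fun _ => Classical.arbitrary Z, fun h' => absurd h' h⟩
  choose k hk using h3
  obtain ⟨q, hJ₂⟩ := exists_fiber hJ₁ fun i j => ⌊ev (k i j) (u i) / e⌋
  obtain ⟨α, ⟨⟨-, a1⟩, a2⟩, β, ⟨⟨⟨-, b0⟩, -⟩, b2⟩, hαβ, h4⟩ := hs m _ hJ₂ k u e he0
  obtain ⟨a3, a4⟩ := Prod.mk.inj a1
  have h5 := hF α ((a / 2) • (u α - u β)) (by
    rw [norm_smul, Real.norm_of_nonneg (by positivity)]
    have c1 := (norm_sub_le (u α) (u β)).trans (add_le_add (h1 α).1 (h1 β).1)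
    calc a / 2 * ‖u α - u β‖ ≤ a / 2 * (a⁻¹ + a⁻¹) := by gcongr
      _ = 1 := by field_simp; norm_num) (by
    intro z hz
    obtain ⟨j, rfl⟩ := hk α a3 z hz
    have c1 := floor_close he0 (congrFun (a2.trans b2.symm) j)
    have c2 := h4 j
    have c3 : |ev (k α j) (u α) - ev (k α j) (u β)| < 2 * e := by
      rw [abs_lt] at c1 c2 ⊢
      constructor <;> linarith [c1.1, c1.2, c2.1, c2.2]
    rw [map_smul, map_sub, smul_eq_mul, abs_mul, abs_of_pos (by positivity)]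
    calc a / 2 * |ev (k α j) (u α) - ev (k α j) (u β)| < a / 2 * (2 * e) := by gcongr
      _ = 1 / (n₃ + 1) := by rw [he]; field_simp
      _ < η α := a4 ▸ hn₂ α)
  rw [map_smul, map_sub, smul_eq_mul, (h1 α).2.1] at h5
  have h6 := lt_of_mul_lt_mul_left h5 (by positivity)
  have h7 : d < δ β := by rw [hd, ← b0]; exact hn₁ β
  linarith [h2 α β hαβ]

end general

variable {K Γ : Type} [TopologicalSpace K] [CompactSpace K] (c : Γ → C(K, Bool))

/-- every uncountable family of tuples of rows has a member approximated by an earlier one -/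
def HS (I : Type) [LinearOrder I] : Prop :=
  ∀ (ι : Type) [Fintype ι] (J : Set I), ¬ J.Countable → ∀ (t : I → ι → K) (S : I → Finset Γ),
    ∃ α ∈ J, ∃ β ∈ J, α < β ∧ ∀ i, ∀ γ ∈ S β, c γ (t α i) = c γ (t β i)

open Finset in
theorem HS.close {I : Type} [LinearOrder I] (h : HS c I) (m : ℕ) (J : Set I) (hJ : ¬ J.Countable)
    (k : I → Fin m → KK (TT K)) (u : I → XX c) (η : ℝ) (hη : 0 < η) :
    ∃ α ∈ J, ∃ β ∈ J, α < β ∧ ∀ i, |evE (k α i) (u β).1 - evE (k β i) (u β).1| < η := by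
  choose μ hμ using fun i => exists_emb c (u i).2 (show 0 < η / 4 by linarith)
  obtain ⟨L, hJ₁⟩ := exists_fiber hJ fun i => ⌈∑ γ ∈ (μ i).support, |μ i γ|⌉₊
  set e : ℝ := η / 2 / (L + 1) with he
  have he0 : 0 < e := by positivity
  obtain ⟨N, hN⟩ := exists_pow_lt_of_lt_one (show 0 < e / 8 by positivity)
    (show (1 / 2 : ℝ) < 1 by norm_num)
  set ρ : ℝ := e / 2 / (N + 1) with hρ
  have hρ0 : 0 < ρ := by positivity
  obtain ⟨q, hJ₂⟩ := exists_fiber
    (C := Fin m → (n : Fin N) → ℤ × ((Fin (4 ^ n.1) → Bool) → Bool)) hJ₁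
    fun β i n => (⌊(k β i).1.1 n / ρ⌋, ((k β i).2 n).2)
  obtain ⟨α, ⟨⟨a0, -⟩, a2⟩, β, ⟨⟨b0, b1⟩, b2⟩, hαβ, h1⟩ :=
    h (Fin m × Σ n : Fin N, Fin (4 ^ n.1)) _ hJ₂
      (fun β p => ((k β p.1).2 p.2.1).1 p.2.2) fun β => (μ β).support
  refine ⟨α, a0, β, b0, hαβ, fun i => ?_⟩
  have h2 : ∀ γ ∈ (μ β).support, |evE (k α i) (dl c γ) - evE (k β i) (dl c γ)| ≤ e := by
    intro γ hγ
    have t1 : ∀ κ : KK (TT K), |evE κ (dl c γ) - ∑ n ∈ range N, κ.1.1 n * dl c γ n (κ.2 n)| ≤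
        1 * (2 * (1 / 2) ^ N) := fun κ =>
      evE_tail κ _ N zero_le_one (by positivity) (fun M => by
        rw [sum_shift (fun n => κ.1.1 n ^ 2)]
        have c1 := κ.1.2 (N + M)
        have c2 : 0 ≤ ∑ n ∈ range N, κ.1.1 n ^ 2 := sum_nonneg fun _ _ => sq_nonneg _
        linarith) (dl_tail c γ N)
    have t2 : |∑ n ∈ range N, (k α i).1.1 n * dl c γ n ((k α i).2 n) -
        ∑ n ∈ range N, (k β i).1.1 n * dl c γ n ((k β i).2 n)| ≤ N * ρ := by
      rw [← sum_sub_distrib]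
      refine (abs_sum_le_sum_abs _ _).trans ((sum_le_card_nsmul _ _ ρ fun n hn => ?_).trans
        (by simp))
      have c1 := Prod.mk.inj (congrFun (congrFun (a2.trans b2.symm) i) ⟨n, mem_range.1 hn⟩)
      have c2 : val c n ((k α i).2 n) γ = val c n ((k β i).2 n) γ := by
        have c3 : ((k α i).2 n).2 = ((k β i).2 n).2 := c1.2
        simp only [val, c3]
        exact congrArg _ (funext fun j => h1 (i, ⟨⟨n, mem_range.1 hn⟩, j⟩) γ hγ)
      rw [dl_apply, dl_apply, c2, ← sub_mul, abs_mul, abs_mul, abs_of_nonneg (by positivity :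
        (0 : ℝ) ≤ (1 / 2) ^ n)]
      have c3 := (floor_close hρ0 c1.1).le
      have c4 : (1 / 2 : ℝ) ^ n * |ind (val c n ((k β i).2 n) γ)| ≤ 1 :=
        mul_le_one₀ (pow_le_one₀ (by norm_num) (by norm_num)) (abs_nonneg _) (ind_abs _)
      exact (mul_le_of_le_one_right (abs_nonneg _) c4).trans c3
    have t3 : N * ρ ≤ e / 2 := by
      rw [hρ, ← mul_div_assoc, div_le_iff₀ (by positivity)]
      nlinarith
    have t4 := abs_le.1 (t1 (k α i))
    have t5 := abs_le.1 (t1 (k β i))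
    rw [abs_le] at t2 ⊢
    constructor <;> linarith [t2.1, t2.2, t4.1, t4.2, t5.1, t5.2]
  have h3 : |evE (k α i) (emb c (μ β)) - evE (k β i) (emb c (μ β))| ≤ L * e := by
    simp only [emb, Finsupp.linearCombination_apply, Finsupp.sum, map_sum, map_smul, smul_eq_mul]
    rw [← sum_sub_distrib]
    refine (abs_sum_le_sum_abs _ _).trans ((sum_le_sum (g := fun γ => |μ β γ| * e)
      fun γ hγ => ?_).trans ?_)
    · rw [← mul_sub, abs_mul]
      exact mul_le_mul_of_nonneg_left (h2 γ hγ) (abs_nonneg _)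
    · rw [← sum_mul]
      exact mul_le_mul_of_nonneg_right (b1 ▸ Nat.le_ceil _) he0.le
  have h4 : L * e ≤ η / 2 := by
    rw [he, ← mul_div_assoc, div_le_iff₀ (by positivity)]
    nlinarith
  have h5 := abs_lt.1 ((evE_le (k α i) _).trans_lt (hμ β))
  have h6 := abs_lt.1 ((evE_le (k β i) _).trans_lt (hμ β))
  rw [map_sub] at h5 h6
  rw [abs_le] at h3
  rw [abs_lt]
  constructor <;> linarith [h3.1, h3.2, h5.1, h5.2, h6.1, h6.2]

theorem dl_mem (γ : Γ) : dl c γ ∈ XX c :=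
  Submodule.le_topologicalClosure _ (Submodule.subset_span ⟨γ, rfl⟩)

theorem not_separable {I : Type} [Uncountable I] (s : I → Γ)
    (hs : ∀ i j, i ≠ j → ∃ t, c (s i) t ≠ c (s j) t) : ¬ TopologicalSpace.SeparableSpace (XX c) := by
  intro h
  refine not_countable (α := I) (Pairwise.countable_of_isOpen_disjoint
    (s := fun i => Metric.ball (⟨dl c (s i), dl_mem c _⟩ : XX c) (1 / 2)) (fun i j hij => ?_)
    (fun _ => Metric.isOpen_ball) fun _ => Metric.nonempty_ball.2 (by norm_num))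
  refine Metric.ball_disjoint_ball ?_
  obtain ⟨t, ht⟩ := hs i j hij
  let τ : TT K 0 := (fun _ => t, fun p => p ⟨0, by norm_num⟩)
  have h1 := (((dl c (s i) - dl c (s j)) 0).norm_coe_le_norm τ).trans
    (lp.norm_apply_le_norm (by norm_num) (dl c (s i) - dl c (s j)) 0)
  have h2 : (dl c (s i) - dl c (s j)) 0 τ = ind (c (s i) t) - ind (c (s j) t) := by
    change dl c (s i) 0 τ - dl c (s j) 0 τ = _
    simp only [dl_apply, pow_zero, one_mul]
    rfl
  rw [h2] at h1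
  rw [Subtype.dist_eq, dist_eq_norm]
  refine le_trans ?_ h1
  revert ht
  cases c (s i) t <;> cases c (s j) t <;> norm_num [ind]

/-- the space of a scattered compact space all of whose powers are hereditarily separable -/
theorem main {I : Type} [LinearOrder I] [WellFoundedLT I] [Uncountable I] [T2Space K] [Nonempty K]
    (hI : ∀ i : I, (Iio i).Countable) (hK : Iso (id : K → K)) (h : HS c I) (s : I → Γ)
    (hs : ∀ i j, i ≠ j → ∃ t, c (s i) t ≠ c (s j) t) :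
    (∃ g : XX c → ℝ, ContDiff ℝ 1 g ∧ (∃ L, LipschitzWith L g) ∧ g ≠ 0 ∧
      Bornology.IsBounded (Function.support g)) ∧
    ¬ ∃ N : Seminorm ℝ (XX c),
      (∃ a b : ℝ, 0 < a ∧ 0 < b ∧ ∀ x : XX c, a * ‖x‖ ≤ N x ∧ N x ≤ b * ‖x‖) ∧
      ∀ C : Set (XX c), Convex ℝ C → IsClosed C → Bornology.IsBounded C → ∀ z : XX c, z ∉ C →
        ∃ x : XX c, ∃ r : ℝ, C ⊆ {y : XX c | N (y - x) ≤ r} ∧ r < N (z - x) := by
  let ev : KK (TT K) → XX c →L[ℝ] ℝ := fun k => (evE k).comp (XX c).subtypeL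
  have hev : ∀ x, Continuous fun k => ev k x := fun x => evE_cont x.1
  have hb : ∀ k x, |ev k x| ≤ ‖x‖ := fun k x => evE_le k x.1
  have hn : ∀ x, ∃ k, ‖x‖ ≤ ev k x := fun x => evE_norming x.1
  have hf : Frag ev := by
    intro D hD hne ε hε
    obtain ⟨O, h1, h2, h3⟩ := frag_evE (T := TT K)
      (fun n => hK.pi.prod Iso.discrete.pi) D hD hne ε hε
    exact ⟨O, h1, h2, fun k hk k' hk' x => h3 k hk k' hk' x.1⟩
  exact ⟨bump_of_frag hev hb hf hn, not_mip hI (not_separable c s hs) hev hb hf hn (h.close c)⟩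

end Pool.Agent.P.MP_f49e60_an
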