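import Pool.Agent.P.MP_f49e60_an.Sum

/-! The space spanned by the columns of a zero-one matrix. It contains no copy of `c₀`. -/

namespace Pool.Agent.P.MP_f49e60_an

open Filter Topology Set Finset

variable {K Γ : Type} [TopologicalSpace K] [CompactSpace K] (c : Γ → C(K, Bool))

/-- tuples of rows with a set of patterns -/
abbrev TT (K : Type) (n : ℕ) : Type := (Fin (4 ^ n) → K) × ((Fin (4 ^ n) → Bool) → Bool)

/-- a truth value as a real number -/
def ind (b : Bool) : ℝ := cond b 1 0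

theorem ind_abs (b : Bool) : |ind b| ≤ 1 := by cases b <;> simp [ind]

/-- the test of a column against a tuple of rows -/
def val (n : ℕ) (τ : TT K n) (γ : Γ) : Bool := τ.2 fun i => c γ (τ.1 i)

omit [CompactSpace K] in
theorem val_cont (n : ℕ) (γ : Γ) : Continuous fun τ : TT K n => ind (val c n τ γ) := by
  have h1 : Continuous fun q : ((Fin (4 ^ n) → Bool) → Bool) × (Fin (4 ^ n) → Bool) =>
      ind (q.1 q.2) := continuous_of_discreteTopology
  exact h1.comp (f := fun τ : TT K n => (τ.2, fun i => c γ (τ.1 i))) (by fun_prop)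

/-- a coordinate of a column -/
noncomputable def dc (γ : Γ) (n : ℕ) : C(TT K n, ℝ) :=
  ⟨fun τ => (1 / 2) ^ n * ind (val c n τ γ), continuous_const.mul (val_cont c n γ)⟩

theorem dc_norm (γ : Γ) (n : ℕ) : ‖dc c γ n‖ ≤ (1 / 2) ^ n := by
  refine (ContinuousMap.norm_le _ (by positivity)).2 fun τ => ?_
  simp only [dc, ContinuousMap.coe_mk, Real.norm_eq_abs, abs_mul]
  rw [abs_of_nonneg (by positivity)]
  exact mul_le_of_le_one_right (by positivity) (ind_abs _)

theorem dc_sq (γ : Γ) (n N : ℕ) : ‖dc c γ (n + N)‖ ^ 2 ≤ (1 / 2) ^ n * ((1 / 2) ^ N) ^ 2 := by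
  refine (pow_le_pow_left₀ (norm_nonneg _) (dc_norm c γ _) 2).trans ?_
  rw [pow_add, mul_pow]
  refine mul_le_mul_of_nonneg_right ?_ (by positivity)
  rw [sq]
  exact mul_le_of_le_one_right (by positivity) (pow_le_one₀ (by norm_num) (by norm_num))

/-- a column as a vector -/
noncomputable def dl (γ : Γ) : EE (TT K) :=
  ⟨dc c γ, memℓp_gen (by
    refine Summable.of_nonneg_of_le (fun n => by positivity) (fun n => ?_) summable_geometric_two
    simpa using dc_sq c γ n 0)⟩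

theorem dl_apply (γ : Γ) (n : ℕ) (τ : TT K n) :
    dl c γ n τ = (1 / 2) ^ n * ind (val c n τ γ) := rfl

theorem dl_tail (γ : Γ) (N M : ℕ) :
    ∑ n ∈ range M, ‖dl c γ (n + N)‖ ^ 2 ≤ (2 * (1 / 2) ^ N) ^ 2 := by
  refine (sum_le_sum fun n _ => dc_sq c γ n N).trans ?_
  rw [← sum_mul]
  have h1 : (0 : ℝ) ≤ ((1 / 2) ^ N) ^ 2 := by positivity
  nlinarith [sum_geometric_two_le M]

/-- the space -/
noncomputable def XX : Submodule ℝ (EE (TT K)) :=
  (Submodule.span ℝ (Set.range (dl c))).topologicalClosure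

instance : CompleteSpace (XX c) := (Submodule.isClosed_topologicalClosure _).completeSpace_coe

/-- finitely supported measures as vectors -/
noncomputable def emb : (Γ →₀ ℝ) →ₗ[ℝ] EE (TT K) := Finsupp.linearCombination ℝ (dl c)

/-- the measure of a set -/
noncomputable def ms (A : Γ → Bool) : (Γ →₀ ℝ) →ₗ[ℝ] ℝ :=
  Finsupp.linearCombination ℝ fun γ => ind (A γ)

theorem exists_emb {x : EE (TT K)} (hx : x ∈ XX c) {ε : ℝ} (hε : 0 < ε) :
    ∃ μ, ‖x - emb c μ‖ < ε := by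
  obtain ⟨y, hy, h⟩ := Metric.mem_closure_iff.1 hx ε hε
  rw [SetLike.mem_coe, ← Finsupp.range_linearCombination] at hy
  obtain ⟨μ, rfl⟩ := hy
  exact ⟨μ, by rwa [dist_eq_norm] at h⟩

theorem emb_apply (μ : Γ →₀ ℝ) (n : ℕ) (τ : TT K n) :
    emb c μ n τ = (1 / 2) ^ n * ms (val c n τ) μ := by
  induction μ using Finsupp.induction_linear with
  | zero => rw [map_zero, map_zero, mul_zero]; rfl
  | add a b ha hb =>
    rw [map_add, map_add, mul_add, ← ha, ← hb]
    rfl
  | single γ r =>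
    simp only [emb, ms, Finsupp.linearCombination_single, lp.coeFn_smul, Pi.smul_apply,
      ContinuousMap.smul_apply, dl_apply, smul_eq_mul]
    ring

theorem ms_congr {A B : Γ → Bool} {μ : Γ →₀ ℝ} (h : ∀ γ ∈ μ.support, A γ = B γ) :
    ms A μ = ms B μ := by
  simp only [ms, Finsupp.linearCombination_apply]
  exact Finsupp.sum_congr fun γ hγ => by rw [h γ hγ]

theorem ms_sub {A B A' B' : Γ → Bool} (h : ∀ γ, ind (A γ) - ind (B γ) = ind (A' γ) - ind (B' γ))
    (μ : Γ →₀ ℝ) : ms A μ - ms B μ = ms A' μ - ms B' μ := by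
  simp only [ms, Finsupp.linearCombination_apply, Finsupp.sum, ← sum_sub_distrib, ← smul_sub, h]

/-- the set is determined by at most `M` rows -/
def Det (M : ℕ) (A : Γ → Bool) : Prop :=
  ∃ s : Finset K, s.card ≤ M ∧ ∀ γ γ', (∀ t ∈ s, c γ t = c γ' t) → A γ = A γ'

omit [CompactSpace K] in
theorem det_val (n : ℕ) (τ : TT K n) : Det c (4 ^ n) (val c n τ) := by
  classical
  refine ⟨Finset.univ.image τ.1, card_image_le.trans (by simp), fun γ γ' h => ?_⟩
  exact congrArg τ.2 (funext fun i => h _ (mem_image_of_mem _ (Finset.mem_univ i)))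

theorem Det.le [Nonempty K] {n : ℕ} {A : Γ → Bool} (h : Det c (4 ^ n) A) (μ : Γ →₀ ℝ) :
    |ms A μ| ≤ 2 ^ n * ‖emb c μ‖ := by
  classical
  obtain ⟨s, hs, h⟩ := h
  obtain ⟨t, ht⟩ : ∃ t : Fin (4 ^ n) → K, ∀ x ∈ s, ∃ i, t i = x := by
    let e := s.equivFin
    refine ⟨fun i => if h : i.1 < s.card then (e.symm ⟨i.1, h⟩).1 else Classical.arbitrary K,
      fun x hx => ⟨⟨(e ⟨x, hx⟩).1, (e ⟨x, hx⟩).2.trans_le hs⟩, ?_⟩⟩
    simp
  let ψ : (Fin (4 ^ n) → Bool) → Bool := fun p =>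
    if h : ∃ γ, (fun i => c γ (t i)) = p then A h.choose else false
  have h1 : val c n (t, ψ) = A := by
    funext γ
    have h2 : ∃ γ', (fun i => c γ' (t i)) = fun i => c γ (t i) := ⟨γ, rfl⟩
    simp only [val, ψ, dif_pos h2]
    refine h _ _ fun x hx => ?_
    obtain ⟨i, rfl⟩ := ht x hx
    exact congrFun h2.choose_spec i
  have h2 := emb_apply c μ n (t, ψ)
  have h3 := ((emb c μ n).norm_coe_le_norm (t, ψ)).trans
    (lp.norm_apply_le_norm (by norm_num) (emb c μ) n)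
  rw [h2, h1, Real.norm_eq_abs, abs_mul, abs_of_nonneg (by positivity), one_div, inv_pow,
    inv_mul_le_iff₀ (by positivity)] at h3
  exact h3

theorem coord_tendsto [Nonempty K] {μ : ℕ → Γ →₀ ℝ} {C : ℝ}
    (h2 : ∀ (s : Finset ℕ) (ε : ℕ → ℝ), (∀ n, |ε n| ≤ 1) → ‖∑ n ∈ s, ε n • emb c (μ n)‖ ≤ C)
    (m : ℕ) : Tendsto (fun n => ‖emb c (μ n) m‖) atTop (𝓝 0) := by
  classical
  have hsum : ∀ (M : ℕ) (A : Γ → Bool), Det c (4 ^ M) A → ∀ s : Finset ℕ,
      ∑ n ∈ s, |ms A (μ n)| ≤ 2 ^ M * C := by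
    intro M A hA s
    let ε : ℕ → ℝ := fun n => if 0 ≤ ms A (μ n) then 1 else -1
    have a1 := h2 s ε fun n => by simp only [ε]; split_ifs <;> simp
    have a2 := hA.le c (∑ n ∈ s, ε n • μ n)
    simp only [map_sum, map_smul] at a2
    have a3 : ∀ n, ε n • ms A (μ n) = |ms A (μ n)| := fun n => by
      simp only [ε]
      split_ifs with h
      · rw [one_smul, abs_of_nonneg h]
      · rw [neg_smul, one_smul, abs_of_neg (not_le.1 h)]
    simp only [a3] at a2
    exact (le_abs_self _).trans (a2.trans (mul_le_mul_of_nonneg_left a1 (by positivity)))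
  by_contra hc
  rw [Metric.tendsto_nhds] at hc
  push Not at hc
  obtain ⟨δ, hδ, hc⟩ := hc
  have h3 : ∀ n, ∃ A, Det c (4 ^ m) A ∧ (δ ≤ dist ‖emb c (μ n) m‖ 0 → δ / 2 ≤ |ms A (μ n)|) := by
    intro n
    by_cases h : δ ≤ dist ‖emb c (μ n) m‖ 0
    · rw [dist_zero_right, norm_norm] at h
      have a1 : ¬ ‖emb c (μ n) m‖ ≤ δ / 2 := by linarith
      rw [ContinuousMap.norm_le _ (by linarith)] at a1
      push Not at a1
      obtain ⟨τ, hτ⟩ := a1
      refine ⟨val c m τ, det_val c m τ, fun _ => ?_⟩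
      rw [emb_apply, Real.norm_eq_abs, abs_mul, abs_of_nonneg (by positivity)] at hτ
      exact hτ.le.trans (mul_le_of_le_one_left (abs_nonneg _)
        (pow_le_one₀ (by norm_num) (by norm_num)))
    · exact ⟨fun _ => false, ⟨∅, by simp, fun _ _ _ => rfl⟩, fun h' => absurd h' h⟩
  choose A hA hA' using h3
  have hP : {n | δ / 2 ≤ |ms (A n) (μ n)|}.Infinite :=
    Nat.frequently_atTop_iff_infinite.1 (hc.mono hA')
  have key : ∀ i : ℕ, ∃ (s : Finset ℕ) (B : Γ → Bool), s.card = i ∧ Det c (2 * i * 4 ^ m) B ∧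
      ∀ n ∈ s, δ / 8 ≤ |ms B (μ n)| := by
    intro i
    induction i with
    | zero => exact ⟨∅, fun _ => false, rfl, ⟨∅, by simp, fun _ _ _ => rfl⟩, by simp⟩
    | succ i ih =>
      obtain ⟨s, B, hs, ⟨u, hu, hB⟩, hB'⟩ := ih
      let W := s.biUnion fun n => (μ n).support
      obtain ⟨p, hp⟩ : ∃ p : W → Bool,
          {n | δ / 2 ≤ |ms (A n) (μ n)| ∧ (fun γ : W => A n γ) = p}.Infinite := by
        by_contra h
        push Not at h
        refine hP ((Set.finite_iUnion h).subset fun n hn => ?_)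
        exact Set.mem_iUnion.2 ⟨_, hn, rfl⟩
      obtain ⟨n₀, -, hn₀⟩ := hp.nonempty
      have a1 : Tendsto (fun n => |ms (A n₀) (μ n)|) atTop (𝓝 0) :=
        (summable_of_sum_le (fun n => abs_nonneg _) (hsum m _ (hA n₀))).tendsto_atTop_zero
      obtain ⟨n, ⟨hn1, hn2⟩, hn3, hn4⟩ := ((Nat.frequently_atTop_iff_infinite.2 hp).and_eventually
        ((a1.eventually (gt_mem_nhds (show 0 < δ / 4 by linarith))).and
          (eventually_gt_atTop (s.sup id)))).exists
      have hns : n ∉ s := fun h => absurd (le_sup (f := id) h) (not_le.2 hn4)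
      obtain ⟨u₁, hu₁, hA₁⟩ := hA n
      obtain ⟨u₀, hu₀, hA₀⟩ := hA n₀
      have a2 : ∀ A' : Γ → Bool, (A' = A n ∨ A' = A n₀) →
          δ / 8 ≤ |ms (fun γ => if A n γ = A n₀ γ then B γ else A' γ) (μ n)| →
          ∃ (s : Finset ℕ) (B : Γ → Bool), s.card = i + 1 ∧ Det c (2 * (i + 1) * 4 ^ m) B ∧
            ∀ n ∈ s, δ / 8 ≤ |ms B (μ n)| := by
        intro A' hA' h
        refine ⟨insert n s, fun γ => if A n γ = A n₀ γ then B γ else A' γ,
          by rw [card_insert_of_notMem hns, hs], ⟨u ∪ u₁ ∪ u₀, ?_, fun γ γ' hγ => ?_⟩,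
          fun n' hn' => ?_⟩
        · have b1 := card_union_le (u ∪ u₁) u₀
          have b2 := card_union_le u u₁
          nlinarith
        · have b1 := hB γ γ' fun t ht => hγ t (by simp [ht])
          have b2 := hA₁ γ γ' fun t ht => hγ t (by simp [ht])
          have b3 := hA₀ γ γ' fun t ht => hγ t (by simp [ht])
          rcases hA' with rfl | rfl <;> simp only [b1, b2, b3]
        · rcases Finset.mem_insert.1 hn' with rfl | hn'
          · exact h
          · refine (hB' n' hn').trans_eq (congrArg _ (ms_congr fun γ hγ => ?_))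
            have b1 : γ ∈ W := mem_biUnion.2 ⟨n', hn', hγ⟩
            rw [if_pos (congrFun (hn2.trans hn₀.symm) ⟨γ, b1⟩)]
      have a3 := ms_sub (A := fun γ => if A n γ = A n₀ γ then B γ else A n γ)
        (B := fun γ => if A n γ = A n₀ γ then B γ else A n₀ γ) (A' := A n) (B' := A n₀)
        (fun γ => by
          by_cases h : A n γ = A n₀ γ
          · simp [h]
          · simp [h]) (μ n)
      by_contra hcon
      have b1 := not_le.1 fun h => hcon (a2 _ (Or.inl rfl) h)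
      have b2 := not_le.1 fun h => hcon (a2 _ (Or.inr rfl) h)
      rw [abs_lt] at b1 b2 hn3
      rcases le_abs'.1 hn1 with h | h <;> linarith [b1.1, b1.2, b2.1, b2.2, hn3.1, hn3.2]
  obtain ⟨r, hr⟩ := pow_unbounded_of_one_lt (2 ^ (m + 1) * C / (δ / 8)) (one_lt_two (α := ℝ))
  obtain ⟨s, B, hs, ⟨u, hu, hB⟩, hB'⟩ := key (4 ^ r)
  have a1 := hsum (m + 1 + r) B ⟨u, hu.trans (by
    rw [pow_add, pow_add]
    nlinarith [Nat.zero_le (4 ^ m * 4 ^ r)]), hB⟩ s
  have a2 := card_nsmul_le_sum s _ _ hB'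
  rw [hs, nsmul_eq_mul] at a2
  rw [div_lt_iff₀ (by linarith)] at hr
  push_cast at a2
  have a3 : (4 : ℝ) ^ r = 2 ^ r * 2 ^ r := by rw [← mul_pow]; norm_num
  have a4 : (0 : ℝ) < 2 ^ r := by positivity
  rw [pow_add] at a1
  rw [a3] at a2
  nlinarith

/-- the unit vectors of the space of null sequences -/
noncomputable def ee (n : ℕ) : ZeroAtInftyContinuousMap ℕ ℝ :=
  ⟨⟨fun j => if j = n then 1 else 0, continuous_of_discreteTopology⟩, by
    rw [cocompact_eq_cofinite, Nat.cofinite_eq_atTop]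
    refine tendsto_const_nhds.congr' ?_
    filter_upwards [eventually_gt_atTop n] with j hj
    simp [hj.ne']⟩

theorem ee_apply (n j : ℕ) : ee n j = if j = n then 1 else 0 := rfl

theorem ee_norm (n : ℕ) : 1 ≤ ‖ee n‖ := by
  have := (ee n).toBCF.norm_coe_le_norm n
  rw [ZeroAtInftyContinuousMap.norm_toBCF_eq_norm] at this
  refine le_trans (le_of_eq ?_) this
  change (1 : ℝ) = ‖ee n n‖
  simp [ee_apply]

theorem ee_sum (s : Finset ℕ) (ε : ℕ → ℝ) (h : ∀ n, |ε n| ≤ 1) : ‖∑ n ∈ s, ε n • ee n‖ ≤ 1 := by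
  classical
  rw [← ZeroAtInftyContinuousMap.norm_toBCF_eq_norm, BoundedContinuousFunction.norm_le zero_le_one]
  intro j
  have h1 : (∑ n ∈ s, ε n • ee n) j = if j ∈ s then ε j else 0 := by
    induction s using Finset.induction_on with
    | empty => simp
    | insert a s ha ih =>
      rw [sum_insert ha, ZeroAtInftyContinuousMap.add_apply, ih,
        ZeroAtInftyContinuousMap.smul_apply, ee_apply]
      by_cases h : j = a
      · simp [h, ha]
      · simp [h]
  change ‖(∑ n ∈ s, ε n • ee n) j‖ ≤ 1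
  rw [h1]
  split_ifs
  · exact h j
  · simp

theorem no_c0 [Nonempty K] : ¬ ∃ T : ZeroAtInftyContinuousMap ℕ ℝ →L[ℝ] XX c,
    ∃ b : ℝ, 0 < b ∧ ∀ u : ZeroAtInftyContinuousMap ℕ ℝ, b * ‖u‖ ≤ ‖T u‖ := by
  rintro ⟨T, b, hb, hT⟩
  have h1 : ∀ n, ∃ μ, ‖(T (ee n)).1 - emb c μ‖ < b / 2 * (1 / 2) ^ n := fun n =>
    exists_emb c (T (ee n)).2 (by positivity)
  choose μ hμ using h1
  have h2 : ∀ (s : Finset ℕ) (ε : ℕ → ℝ), (∀ n, |ε n| ≤ 1) →
      ‖∑ n ∈ s, ε n • emb c (μ n)‖ ≤ ‖T‖ + b := by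
    intro s ε hε
    have a1 : ‖∑ n ∈ s, ε n • (T (ee n)).1‖ ≤ ‖T‖ := by
      have b1 := T.le_opNorm (∑ n ∈ s, ε n • ee n)
      have b2 : (T (∑ n ∈ s, ε n • ee n)).1 = ∑ n ∈ s, ε n • (T (ee n)).1 := by
        simp only [map_sum, map_smul, Submodule.coe_sum, Submodule.coe_smul]
      rw [← b2]
      exact b1.trans (mul_le_of_le_one_right T.opNorm_nonneg (ee_sum s ε hε))
    have a2 : ‖∑ n ∈ s, ε n • ((T (ee n)).1 - emb c (μ n))‖ ≤ b := by
      refine (norm_sum_le _ _).trans ((sum_le_sum (g := fun n => b / 2 * (1 / 2) ^ n)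
        fun n _ => ?_).trans ?_)
      · rw [norm_smul]
        exact (mul_le_of_le_one_left (norm_nonneg _) (hε n)).trans (hμ n).le
      · rw [← mul_sum]
        have b1 := sum_le_hasSum s (fun _ _ => by positivity) hasSum_geometric_two
        nlinarith
    have a3 : ∑ n ∈ s, ε n • emb c (μ n) = ∑ n ∈ s, ε n • (T (ee n)).1 -
        ∑ n ∈ s, ε n • ((T (ee n)).1 - emb c (μ n)) := by
      rw [← sum_sub_distrib]
      exact sum_congr rfl fun n _ => by rw [smul_sub, sub_sub_cancel]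
    rw [a3]
    exact (norm_sub_le _ _).trans (add_le_add a1 a2)
  refine EE.hump (f := fun n => emb c (μ n)) (c := b / 2) (C := ‖T‖ + b) (by linarith)
    (fun n => ?_) (fun s => by simpa only [one_smul] using h2 s (fun _ => 1) (by simp)) (coord_tendsto c h2)
  have a1 := hT (ee n)
  have a2 : ‖T (ee n)‖ ≤ ‖(T (ee n)).1 - emb c (μ n)‖ + ‖emb c (μ n)‖ := by
    have b1 := norm_add_le ((T (ee n)).1 - emb c (μ n)) (emb c (μ n))
    rwa [sub_add_cancel] at b1
  have a3 : b / 2 * (1 / 2) ^ n ≤ b / 2 :=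
    mul_le_of_le_one_right (by linarith) (pow_le_one₀ (by norm_num) (by norm_num))
  nlinarith [ee_norm n, hμ n]

end Pool.Agent.P.MP_f49e60_an
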