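import Pool.Agent.P.MP_f49e60_an.Frag

/-! The Hilbertian sum of spaces of continuous functions on scattered compact spaces. -/

namespace Pool.Agent.P.MP_f49e60_an

open Filter Topology Set Finset

theorem cs_tsum {u v : ℕ → ℝ} {r s : ℝ} (hr : 0 ≤ r) (hs : 0 ≤ s)
    (hu : ∀ N, ∑ n ∈ range N, u n ^ 2 ≤ r ^ 2) (hv : ∀ N, ∑ n ∈ range N, v n ^ 2 ≤ s ^ 2) :
    Summable (fun n => u n * v n) ∧ |∑' n, u n * v n| ≤ r * s := by
  have h1 : Summable fun n => u n ^ 2 := summable_of_sum_range_le (fun n => sq_nonneg _) hu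
  have h2 : Summable fun n => v n ^ 2 := summable_of_sum_range_le (fun n => sq_nonneg _) hv
  have h3 : Summable fun n => u n * v n := by
    refine Summable.of_norm_bounded (h1.add h2) fun n => ?_
    rw [Real.norm_eq_abs, abs_le]
    constructor <;> nlinarith [sq_nonneg (u n + v n), sq_nonneg (u n - v n)]
  refine ⟨h3, le_of_tendsto' h3.hasSum.tendsto_sum_nat.abs fun N => ?_⟩
  refine abs_le_of_sq_le_sq' ?_ (mul_nonneg hr hs) |> abs_le.2
  calc (∑ n ∈ range N, u n * v n) ^ 2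
      ≤ (∑ n ∈ range N, u n ^ 2) * ∑ n ∈ range N, v n ^ 2 := sum_mul_sq_le_sq_mul_sq _ _ _
    _ ≤ r ^ 2 * s ^ 2 := mul_le_mul (hu N) (hv N) (sum_nonneg fun _ _ => sq_nonneg _) (sq_nonneg _)
    _ = (r * s) ^ 2 := by ring

/-- `p` is constant on a relatively open part of every nonempty set -/
def Iso {Z Y : Type} [TopologicalSpace Z] (p : Z → Y) : Prop :=
  ∀ S : Set Z, S.Nonempty → ∃ O, IsOpen O ∧ (O ∩ S).Nonempty ∧ ∀ z ∈ O ∩ S, ∀ z' ∈ O ∩ S, p z = p z'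

theorem Iso.comp {Z Y W : Type} [TopologicalSpace Z] [TopologicalSpace Y] {q : Y → W} (h : Iso q)
    {p : Z → Y} (hp : Continuous p) : Iso (q ∘ p) := by
  intro S hS
  obtain ⟨O, h1, ⟨_, h2, z, hz, rfl⟩, h3⟩ := h (p '' S) (hS.image p)
  exact ⟨p ⁻¹' O, h1.preimage hp, ⟨z, h2, hz⟩, fun a ha b hb =>
    h3 _ ⟨ha.1, a, ha.2, rfl⟩ _ ⟨hb.1, b, hb.2, rfl⟩⟩

theorem Iso.finset {Z ι : Type} {Y : ι → Type} [TopologicalSpace Z] {p : ∀ i, Z → Y i}
    (h : ∀ i, Iso (p i)) (s : Finset ι) : ∀ S : Set Z, S.Nonempty → ∃ O, IsOpen O ∧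
      (O ∩ S).Nonempty ∧ ∀ z ∈ O ∩ S, ∀ z' ∈ O ∩ S, ∀ i ∈ s, p i z = p i z' := by
  classical
  induction s using Finset.induction_on with
  | empty => exact fun S hS => ⟨univ, isOpen_univ, by simpa using hS, by simp⟩
  | insert i s _ ih =>
    intro S hS
    obtain ⟨O, h1, h2, h3⟩ := ih S hS
    obtain ⟨O', h4, h5, h6⟩ := h i _ h2
    refine ⟨O' ∩ O, h4.inter h1, by rwa [Set.inter_assoc], fun z hz z' hz' j hj => ?_⟩
    rcases Finset.mem_insert.1 hj with rfl | hj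
    · exact h6 z ⟨hz.1.1, hz.1.2, hz.2⟩ z' ⟨hz'.1.1, hz'.1.2, hz'.2⟩
    · exact h3 z ⟨hz.1.2, hz.2⟩ z' ⟨hz'.1.2, hz'.2⟩ j hj

theorem Iso.pi {ι Y : Type} [Finite ι] [TopologicalSpace Y] (h : Iso (id : Y → Y)) :
    Iso (id : (ι → Y) → ι → Y) := by
  have := Fintype.ofFinite ι
  intro S hS
  obtain ⟨O, h1, h2, h3⟩ := Iso.finset (Z := ι → Y) (Y := fun _ => Y) (p := fun i z => z i)
    (fun i => h.comp (continuous_apply i)) Finset.univ S hS
  exact ⟨O, h1, h2, fun z hz z' hz' => funext fun i => h3 z hz z' hz' i (Finset.mem_univ i)⟩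

theorem Iso.prod {Y W : Type} [TopologicalSpace Y] [TopologicalSpace W] (h : Iso (id : Y → Y))
    (h' : Iso (id : W → W)) : Iso (id : Y × W → Y × W) := by
  intro S hS
  obtain ⟨O, h1, h2, h3⟩ := h.comp (continuous_fst (X := Y) (Y := W)) S hS
  obtain ⟨O', h4, h5, h6⟩ := h'.comp (continuous_snd (X := Y) (Y := W)) _ h2
  refine ⟨O' ∩ O, h4.inter h1, by rwa [Set.inter_assoc], fun z hz z' hz' => Prod.ext ?_ ?_⟩
  · exact h3 z ⟨hz.1.2, hz.2⟩ z' ⟨hz'.1.2, hz'.2⟩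
  · exact h6 z ⟨hz.1.1, hz.1.2, hz.2⟩ z' ⟨hz'.1.1, hz'.1.2, hz'.2⟩

theorem Iso.discrete {Y : Type} [TopologicalSpace Y] [DiscreteTopology Y] : Iso (id : Y → Y) := by
  rintro S ⟨y, hy⟩
  exact ⟨{y}, isOpen_discrete _, ⟨y, rfl, hy⟩, fun z hz z' hz' => hz.1.trans hz'.1.symm⟩

/-- the unit ball of the sequence space, with the product topology -/
def BL : Set (ℕ → ℝ) := {a | ∀ N, ∑ n ∈ range N, a n ^ 2 ≤ 1}

theorem BL.le_one (a : BL) (n : ℕ) : |a.1 n| ≤ 1 := by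
  have h1 := a.2 (n + 1)
  rw [sum_range_succ] at h1
  have h2 : 0 ≤ ∑ n ∈ range n, a.1 n ^ 2 := sum_nonneg fun _ _ => sq_nonneg _
  exact abs_le.2 (abs_le_of_sq_le_sq' (by linarith) zero_le_one)

theorem BL.sq (a : BL) (N : ℕ) : ∑ n ∈ range N, a.1 n ^ 2 ≤ 1 ^ 2 := by
  rw [one_pow]
  exact a.2 N

instance : CompactSpace BL := by
  refine isCompact_iff_compactSpace.1 ((isCompact_univ_pi fun _ : ℕ =>
    (isCompact_Icc (a := (-1 : ℝ)) (b := 1))).of_isClosed_subset ?_ fun a ha n _ => ?_)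
  · simp only [BL, ofPred_forall]
    exact isClosed_iInter fun N => isClosed_le (by fun_prop) continuous_const
  · exact abs_le.1 (BL.le_one ⟨a, ha⟩ n)

instance : Nonempty BL := ⟨⟨0, fun N => by simp⟩⟩

variable {T : ℕ → Type} [∀ n, TopologicalSpace (T n)] [∀ n, CompactSpace (T n)]

/-- the ambient space -/
abbrev EE (T : ℕ → Type) [∀ n, TopologicalSpace (T n)] [∀ n, CompactSpace (T n)] : Type :=
  lp (fun n => C(T n, ℝ)) 2

theorem EE.hasSum (x : EE T) : HasSum (fun n => ‖x n‖ ^ 2) (‖x‖ ^ 2) := by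
  simpa using lp.hasSum_norm (p := 2) (by norm_num) x

theorem EE.sum_le (x : EE T) (s : Finset ℕ) : ∑ n ∈ s, ‖x n‖ ^ 2 ≤ ‖x‖ ^ 2 :=
  sum_le_hasSum s (fun _ _ => sq_nonneg _) x.hasSum

theorem EE.sq_le (x : EE T) (n : ℕ) (t : T n) : x n t ^ 2 ≤ ‖x n‖ ^ 2 := by
  have := (x n).norm_coe_le_norm t
  rw [Real.norm_eq_abs] at this
  exact sq_le_sq' (abs_le.1 this).1 (abs_le.1 this).2

theorem EE.cs (x : EE T) (t : ∀ n, T n) {u : ℕ → ℝ} {r : ℝ} (hr : 0 ≤ r)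
    (hu : ∀ N, ∑ n ∈ range N, u n ^ 2 ≤ r ^ 2) :
    Summable (fun n => u n * x n (t n)) ∧ |∑' n, u n * x n (t n)| ≤ r * ‖x‖ :=
  cs_tsum hr (norm_nonneg x) hu fun _ =>
    (sum_le_sum fun n _ => x.sq_le n (t n)).trans (x.sum_le _)

/-- the norming compact space -/
abbrev KK (T : ℕ → Type) : Type := BL × ∀ n, T n

omit [∀ n, CompactSpace (T n)] in
@[fun_prop] theorem KK.cont (n : ℕ) : Continuous fun k : KK T => k.1.1 n :=
  (continuous_apply n).comp (continuous_subtype_val.comp continuous_fst)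

omit [∀ n, CompactSpace (T n)] in
@[fun_prop] theorem KK.cont' (n : ℕ) : Continuous fun k : KK T => k.2 n :=
  (continuous_apply n).comp continuous_snd

/-- the functional of a point of the norming space -/
noncomputable def evE (k : KK T) : EE T →L[ℝ] ℝ :=
  LinearMap.mkContinuous
    { toFun := fun x => ∑' n, k.1.1 n * x n (k.2 n)
      map_add' := fun x y => by
        rw [← (x.cs k.2 zero_le_one (BL.sq k.1)).1.tsum_add
          (y.cs k.2 zero_le_one (BL.sq k.1)).1]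
        simp [mul_add]
      map_smul' := fun c x => by
        simp only [RingHom.id_apply, smul_eq_mul, ← tsum_mul_left]
        refine tsum_congr fun n => ?_
        simp only [lp.coeFn_smul, Pi.smul_apply, ContinuousMap.smul_apply, smul_eq_mul]
        ring } 1
    fun x => (x.cs k.2 zero_le_one (BL.sq k.1)).2

theorem evE_apply (k : KK T) (x : EE T) : evE k x = ∑' n, k.1.1 n * x n (k.2 n) := rfl

theorem evE_le (k : KK T) (x : EE T) : |evE k x| ≤ ‖x‖ := by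
  simpa [evE_apply] using (x.cs k.2 zero_le_one (BL.sq k.1)).2

theorem evE_tail (k : KK T) (x : EE T) (N : ℕ) {r s : ℝ} (hr : 0 ≤ r) (hs : 0 ≤ s)
    (hu : ∀ M, ∑ n ∈ range M, k.1.1 (n + N) ^ 2 ≤ r ^ 2)
    (hv : ∀ M, ∑ n ∈ range M, ‖x (n + N)‖ ^ 2 ≤ s ^ 2) :
    |evE k x - ∑ n ∈ range N, k.1.1 n * x n (k.2 n)| ≤ r * s := by
  rw [evE_apply, ← (x.cs k.2 zero_le_one (BL.sq k.1)).1.sum_add_tsum_nat_add N,
    add_sub_cancel_left]
  exact (cs_tsum (v := fun n => x (n + N) (k.2 (n + N))) hr hs hu fun M =>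
    (sum_le_sum fun n _ => x.sq_le _ _).trans (hv M)).2

theorem sum_shift (u : ℕ → ℝ) (N M : ℕ) :
    ∑ n ∈ range M, u (n + N) = ∑ n ∈ range (N + M), u n - ∑ n ∈ range N, u n := by
  rw [sum_range_add]
  simp [add_comm]

theorem EE.tail (x : EE T) {ε : ℝ} (hε : 0 < ε) :
    ∀ᶠ N in atTop, ∀ M, ∑ n ∈ range M, ‖x (n + N)‖ ^ 2 ≤ ε ^ 2 := by
  filter_upwards [x.hasSum.tendsto_sum_nat.eventually
    (lt_mem_nhds (show ‖x‖ ^ 2 - ε ^ 2 < ‖x‖ ^ 2 by nlinarith))] with N hN M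
  rw [sum_shift (fun n => ‖x n‖ ^ 2)]
  linarith [x.sum_le (range (N + M))]

theorem evE_cont (x : EE T) : Continuous fun k : KK T => evE k x := by
  refine TendstoUniformly.continuous (p := atTop)
    (F := fun N (k : KK T) => ∑ n ∈ range N, k.1.1 n * x n (k.2 n)) ?_
    (Frequently.of_forall fun N => by fun_prop)
  rw [Metric.tendstoUniformly_iff]
  intro ε hε
  filter_upwards [x.tail (half_pos hε)] with N hN k
  have := evE_tail k x N zero_le_one (half_pos hε).le (fun M => by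
    rw [sum_shift (fun n => k.1.1 n ^ 2)]
    have h1 := k.1.2 (N + M)
    have h2 : 0 ≤ ∑ n ∈ range N, k.1.1 n ^ 2 := sum_nonneg fun _ _ => sq_nonneg _
    linarith) hN
  rw [Real.dist_eq]
  linarith

theorem evE_norming [∀ n, Nonempty (T n)] (x : EE T) : ∃ k : KK T, ‖x‖ ≤ evE k x := by
  by_cases hx : x = 0
  · exact ⟨Classical.arbitrary _, by simp [hx]⟩
  have h0 : 0 < ‖x‖ := norm_pos_iff.2 hx
  have h1 : ∀ n, ∃ t : T n, x n t ^ 2 = ‖x n‖ ^ 2 := fun n => by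
    obtain ⟨t, -, ht⟩ := isCompact_univ.exists_isMaxOn univ_nonempty
      (f := fun t => |x n t|) (by fun_prop)
    refine ⟨t, le_antisymm (x.sq_le n t) ?_⟩
    rw [← sq_abs (x n t)]
    exact pow_le_pow_left₀ (norm_nonneg _)
      ((ContinuousMap.norm_le _ (abs_nonneg _)).2 fun s => ht (Set.mem_univ s)) 2
  choose t ht using h1
  refine ⟨(⟨fun n => x n (t n) / ‖x‖, fun N => ?_⟩, t), ?_⟩
  · simp only [div_pow, ht, ← sum_div]
    rw [div_le_one (by positivity)]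
    exact x.sum_le _
  · rw [evE_apply]
    have h2 : ∀ n, x n (t n) / ‖x‖ * x n (t n) = ‖x n‖ ^ 2 / ‖x‖ := fun n => by
      rw [← ht n]; ring
    simp only [h2]
    rw [tsum_div_const, x.hasSum.tsum_eq, le_div_iff₀ h0, sq]

theorem frag_evE (hT : ∀ n, Iso (id : T n → T n)) : Frag (evE (T := T)) := by
  intro D _ hne ε hε
  set e := ε / 4 with he
  have he0 : 0 < e := by positivity
  let S : Set ℝ := {r | ∃ k ∈ D, ∃ N, r = ∑ n ∈ range N, k.1.1 n ^ 2}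
  have hS : BddAbove S := ⟨1, by rintro _ ⟨k, -, N, rfl⟩; exact k.1.2 N⟩
  have hS' : S.Nonempty := let ⟨k, hk⟩ := hne; ⟨_, k, hk, 0, rfl⟩
  obtain ⟨_, ⟨k₀, hk₀, N, rfl⟩, h1⟩ := exists_lt_of_lt_csSup hS'
    (show sSup S - e ^ 2 < sSup S by nlinarith)
  let O₁ : Set (KK T) := {k | sSup S - e ^ 2 < ∑ n ∈ range N, k.1.1 n ^ 2}
  have hO₁ : IsOpen O₁ := isOpen_lt continuous_const (by fun_prop)
  obtain ⟨O₂, hO₂, ⟨k₁, hk₁⟩, h2⟩ := Iso.finset (Z := KK T) (p := fun n k => k.2 n)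
    (fun n => (hT n).comp (by fun_prop)) (range N) (O₁ ∩ D) ⟨k₀, h1, hk₀⟩
  let O₃ : Set (KK T) := {k | ∑ n ∈ range N, (k.1.1 n - k₁.1.1 n) ^ 2 < e ^ 2}
  have hO₃ : IsOpen O₃ := isOpen_lt (by fun_prop) continuous_const
  have key : ∀ k ∈ O₃ ∩ (O₂ ∩ O₁) ∩ D, ∀ x : EE T,
      |evE k x - ∑ n ∈ range N, k₁.1.1 n * x n (k₁.2 n)| ≤ 2 * e * ‖x‖ := by
    rintro k ⟨⟨a3, a2, a1⟩, a0⟩ x
    have b1 := evE_tail k x N he0.le (norm_nonneg x) (fun M => by
      rw [sum_shift (fun n => k.1.1 n ^ 2)]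
      have c1 : ∑ n ∈ range (N + M), k.1.1 n ^ 2 ≤ sSup S := le_csSup hS ⟨k, a0, _, rfl⟩
      have c2 : sSup S - e ^ 2 < ∑ n ∈ range N, k.1.1 n ^ 2 := a1
      linarith) (fun M => by
      rw [sum_shift (fun n => ‖x n‖ ^ 2)]
      have c1 : 0 ≤ ∑ n ∈ range N, ‖x n‖ ^ 2 := sum_nonneg fun _ _ => sq_nonneg _
      linarith [x.sum_le (range (N + M))])
    have b2 : |∑ n ∈ range N, (k.1.1 n - k₁.1.1 n) * x n (k₁.2 n)| ≤ e * ‖x‖ := by
      refine abs_le_of_sq_le_sq' ?_ (by positivity) |> abs_le.2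
      have c1 : ∑ n ∈ range N, (k.1.1 n - k₁.1.1 n) ^ 2 < e ^ 2 := a3
      calc _ ≤ _ := sum_mul_sq_le_sq_mul_sq _ _ _
        _ ≤ e ^ 2 * ‖x‖ ^ 2 := mul_le_mul c1.le
            ((sum_le_sum fun n _ => x.sq_le n _).trans (x.sum_le _))
            (sum_nonneg fun _ _ => sq_nonneg _) (sq_nonneg _)
        _ = (e * ‖x‖) ^ 2 := by ring
    have b3 : ∑ n ∈ range N, k.1.1 n * x n (k.2 n) =
        ∑ n ∈ range N, (k.1.1 n - k₁.1.1 n) * x n (k₁.2 n) +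
          ∑ n ∈ range N, k₁.1.1 n * x n (k₁.2 n) := by
      rw [← sum_add_distrib]
      refine sum_congr rfl fun n hn => ?_
      have c1 : k.2 n = k₁.2 n := h2 k ⟨a2, a1, a0⟩ k₁ hk₁ n hn
      rw [c1]
      ring
    rw [b3, abs_le] at b1
    rw [abs_le] at b2 ⊢
    constructor <;> linarith [b1.1, b1.2, b2.1, b2.2]
  refine ⟨O₃ ∩ (O₂ ∩ O₁), hO₃.inter (hO₂.inter hO₁),
    ⟨k₁, ⟨by simpa [O₃] using pow_pos he0 2, hk₁.1, hk₁.2.1⟩, hk₁.2.2⟩, fun k hk k' hk' x => ?_⟩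
  have b1 := abs_le.1 (key k hk x)
  have b2 := abs_le.1 (key k' hk' x)
  have b3 : ε * ‖x‖ = 4 * e * ‖x‖ := by rw [he]; ring
  rw [abs_le]
  constructor <;> linarith [b1.1, b1.2, b2.1, b2.2]

/-- gliding hump -/
theorem EE.hump {f : ℕ → EE T} {c C : ℝ} (hc : 0 < c) (h1 : ∀ n, c ≤ ‖f n‖)
    (h2 : ∀ s : Finset ℕ, ‖∑ n ∈ s, f n‖ ≤ C) (h3 : ∀ m, Tendsto (fun n => ‖f n m‖) atTop (𝓝 0)) :
    False := by
  classical
  have hC : 0 ≤ C := by simpa using h2 ∅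
  have key : ∀ i : ℕ, ∃ s : Finset ℕ, i * (c ^ 2 / 2) ≤ ‖∑ n ∈ s, f n‖ ^ 2 := by
    intro i
    induction i with
    | zero => exact ⟨∅, by simp⟩
    | succ i ih =>
      obtain ⟨s, hs⟩ := ih
      set y := ∑ n ∈ s, f n with hy
      set e := c ^ 2 / (8 * (C + 1)) with he
      have he0 : 0 < e := by positivity
      obtain ⟨N, hN⟩ := (y.tail he0).exists
      have h4 : Tendsto (fun n => ∑ m ∈ range N, ‖f n m‖ ^ 2) atTop (𝓝 0) := by
        simpa using tendsto_finsetSum (range N) fun m _ => (h3 m).pow 2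
      obtain ⟨n, hn, hn'⟩ := ((h4.eventually (gt_mem_nhds (show (0 : ℝ) < e ^ 2 by positivity))).and
        (eventually_gt_atTop (s.sup id))).exists
      have hns : n ∉ s := fun h => absurd (le_sup (f := id) h) (not_le.2 hn')
      refine ⟨insert n s, ?_⟩
      rw [sum_insert hns, ← hy]
      have hfn : ‖f n‖ ≤ C := by simpa using h2 {n}
      have hyC : ‖y‖ ≤ C := h2 s
      have a1 := cs_tsum (u := fun m => ‖y (m + N)‖) (v := fun m => ‖f n (m + N)‖) he0.le hC hN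
        (fun M => by
          rw [sum_shift (fun m => ‖f n m‖ ^ 2)]
          have c1 : 0 ≤ ∑ m ∈ range N, ‖f n m‖ ^ 2 := sum_nonneg fun _ _ => sq_nonneg _
          have c2 : ‖f n‖ ^ 2 ≤ C ^ 2 := pow_le_pow_left₀ (norm_nonneg _) hfn 2
          linarith [(f n).sum_le (range (N + M))])
      have a2 : ∑ m ∈ range N, ‖y m‖ * ‖f n m‖ ≤ C * e := by
        refine (abs_le_of_sq_le_sq' ?_ (by positivity)).2
        calc _ ≤ _ := sum_mul_sq_le_sq_mul_sq _ _ _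
          _ ≤ C ^ 2 * e ^ 2 := mul_le_mul ((y.sum_le _).trans
              (pow_le_pow_left₀ (norm_nonneg _) hyC 2)) hn.le
              (sum_nonneg fun _ _ => sq_nonneg _) (sq_nonneg _)
          _ = (C * e) ^ 2 := by ring
      have a3 : Summable fun m => ‖y m‖ * ‖f n m‖ := (summable_nat_add_iff N).1 a1.1
      have a4 : ∑' m, ‖y m‖ * ‖f n m‖ ≤ C * e + e * C := by
        rw [← a3.sum_add_tsum_nat_add N]
        linarith [(abs_le.1 a1.2).2]
      have a5 : ‖y‖ ^ 2 + ‖f n‖ ^ 2 - 2 * ∑' m, ‖y m‖ * ‖f n m‖ ≤ ‖f n + y‖ ^ 2 := by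
        refine hasSum_le (fun m => ?_) ((y.hasSum.add (f n).hasSum).sub (a3.hasSum.mul_left 2))
          (f n + y).hasSum
        have c1 : |‖f n m‖ - ‖y m‖| ≤ ‖(f n + y) m‖ := by
          simpa using abs_norm_sub_norm_le (f n m) (-y m)
        nlinarith [sq_abs (‖f n m‖ - ‖y m‖), abs_nonneg (‖f n m‖ - ‖y m‖)]
      have a6 : c ^ 2 ≤ ‖f n‖ ^ 2 := pow_le_pow_left₀ hc.le (h1 n) 2
      have a7 : e * (8 * (C + 1)) = c ^ 2 := by rw [he]; field_simp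
      push_cast
      nlinarith
  obtain ⟨i, hi⟩ := exists_nat_gt (C ^ 2 / (c ^ 2 / 2))
  obtain ⟨s, hs⟩ := key i
  rw [div_lt_iff₀ (by positivity)] at hi
  linarith [pow_le_pow_left₀ (norm_nonneg _) (h2 s) 2]

end Pool.Agent.P.MP_f49e60_an
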