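import Pool.Agent.P.MP_f49e60_an.Mip

/-! A scattered compact space with hereditarily separable powers, from an unbounded scale
(after Todorcevic). -/

namespace Pool.Agent.P.MP_f49e60_an

open Filter Topology Set

/-- an unbounded increasing family of sequences with a coherent family of finite-to-one maps -/
structure Scale (I : Type) [LinearOrder I] where
  f : I → ℕ → ℕ
  e : I → I → ℕ
  mono : ∀ α, Monotone (f α)
  lt : ∀ α β, α < β → ∀ᶠ n in atTop, f α n < f β n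
  unb : ∀ g : ℕ → ℕ, ∃ α, ∃ᶠ n in atTop, g n < f α n
  fin : ∀ β r, {α | α < β ∧ e β α ≤ r}.Finite
  coh : ∀ β β', β < β' → {α | α < β ∧ e β α ≠ e β' α}.Finite

variable {I : Type} [LinearOrder I]

theorem exists_coherent [WellFoundedLT I] (hI : ∀ i : I, (Iio i).Countable) :
    ∃ e : I → I → ℕ, (∀ β r, {α | α < β ∧ e β α ≤ r}.Finite) ∧
      ∀ β β', β < β' → {α | α < β ∧ e β α ≠ e β' α}.Finite := by
  classical
  have h1 : ∀ δ : I, ∃ en : ℕ → I, ∀ α, α < δ → (∃ n, α ≤ en n) ∧ (∀ n, en n < δ) ∧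
      ∃ n, en n = α := by
    intro δ
    rcases (Iio δ).eq_empty_or_nonempty with h | h
    · exact ⟨fun _ => δ, fun α hα => absurd (h ▸ hα : α ∈ (∅ : Set I)) (notMem_empty α)⟩
    · obtain ⟨en, hen⟩ := (hI δ).exists_eq_range h
      refine ⟨en, fun α hα => ?_⟩
      obtain ⟨n, hn⟩ : α ∈ range en := hen ▸ hα
      exact ⟨⟨n, hn.ge⟩, fun n => show en n ∈ Iio δ from hen ▸ mem_range_self n, n, hn⟩
  choose en hen using h1
  let e : I → I → ℕ := (wellFounded_lt (α := I)).fix fun δ r α =>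
    if h : α < δ then max (Nat.find (hen δ α h).1)
      (r (en δ (Nat.find (hen δ α h).1)) ((hen δ α h).2.1 _) α) else 0
  have he : ∀ δ α (h : α < δ), ∃ n, α ≤ en δ n ∧ (∀ m, α ≤ en δ m → n ≤ m) ∧
      e δ α = max n (e (en δ n) α) := by
    intro δ α h
    refine ⟨Nat.find (hen δ α h).1, Nat.find_spec (hen δ α h).1,
      fun m hm => Nat.find_min' _ hm, ?_⟩
    have := congrFun (WellFounded.fix_eq (C := fun _ => I → ℕ) (wellFounded_lt (α := I))
      (fun δ r α =>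
      if h : α < δ then max (Nat.find (hen δ α h).1)
        (r (en δ (Nat.find (hen δ α h).1)) ((hen δ α h).2.1 _) α) else (0 : ℕ)) δ) α
    rw [dif_pos h] at this
    exact this
  have hf : ∀ β r, {α | α < β ∧ e β α ≤ r}.Finite := by
    intro β
    induction β using WellFoundedLT.induction with
    | ind β ih =>
      intro r
      rcases (Iio β).eq_empty_or_nonempty with h | ⟨α₀, h⟩
      · exact finite_empty.subset fun α hα => h ▸ hα.1
      refine ((finite_Iic r).biUnion fun n _ =>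
        (ih _ ((hen β α₀ h).2.1 n) r).insert (en β n)).subset fun α hα => ?_
      obtain ⟨n, h1, -, h3⟩ := he β α hα.1
      have h4 := hα.2
      rw [h3, max_le_iff] at h4
      exact mem_biUnion h4.1 (h1.eq_or_lt.imp id fun h5 => ⟨h5, h4.2⟩)
  refine ⟨e, hf, fun β β' => ?_⟩
  induction β' using WellFoundedLT.induction generalizing β with
  | ind δ ih =>
    intro h
    obtain ⟨-, h1, N, hN⟩ := hen δ β h
    have h2 : ∀ n, {α | α < β ∧ α < en δ n ∧ e β α ≠ e (en δ n) α}.Finite := by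
      intro n
      rcases lt_trichotomy β (en δ n) with h3 | h3 | h3
      · exact (ih _ (h1 n) β h3).subset fun α hα => ⟨hα.1, hα.2.2⟩
      · exact finite_empty.subset fun α hα => hα.2.2 (by rw [← h3])
      · exact (ih _ h _ h3).subset fun α hα => ⟨hα.2.1, hα.2.2.symm⟩
    refine ((finite_Iic N).biUnion fun n _ =>
      ((h2 n).union (hf (en δ n) n)).insert (en δ n)).subset fun α hα => ?_
    obtain ⟨n, h3, h4, h5⟩ := he δ α (hα.1.trans h)
    refine mem_biUnion (h4 N (hN ▸ hα.1.le)) (h3.eq_or_lt.imp id fun h6 => ?_)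
    rcases le_total (e (en δ n) α) n with h7 | h7
    · exact Or.inr ⟨h6, h7⟩
    · exact Or.inl ⟨hα.1, h6, by rw [← max_eq_right h7, ← h5]; exact hα.2⟩

theorem exists_dominating {S : Set (ℕ → ℕ)} (hS : S.Countable) (g : ℕ → ℕ) :
    ∃ f : ℕ → ℕ, Monotone f ∧ (∀ᶠ n in atTop, g n < f n) ∧ ∀ s ∈ S, ∀ᶠ n in atTop, s n < f n := by
  obtain ⟨u, hu⟩ := (hS.insert g).exists_eq_range (insert_nonempty g S)
  let f : ℕ → ℕ := fun n => (∑ i ∈ Finset.range (n + 1), ∑ j ∈ Finset.range (n + 1), u i j) + 1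
  have h : ∀ s ∈ insert g S, ∀ᶠ n in atTop, s n < f n := by
    rw [hu]
    rintro _ ⟨i, rfl⟩
    filter_upwards [eventually_ge_atTop i] with n hn
    refine Nat.lt_succ_of_le (le_trans ?_ (Finset.single_le_sum
      (f := fun i => ∑ j ∈ Finset.range (n + 1), u i j) (fun _ _ => Nat.zero_le _)
      (Finset.mem_range.2 (Nat.lt_succ_of_le hn))))
    exact Finset.single_le_sum (f := fun j => u i j) (fun _ _ => Nat.zero_le _)
      (Finset.self_mem_range_succ n)
  refine ⟨f, fun m n hmn => Nat.succ_le_succ ?_, h g (mem_insert _ _),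
    fun s hs => h s (mem_insert_of_mem _ hs)⟩
  have h1 : Finset.range (m + 1) ⊆ Finset.range (n + 1) := Finset.range_mono (by omega)
  exact (Finset.sum_le_sum fun i _ => Finset.sum_le_sum_of_subset h1).trans
    (Finset.sum_le_sum_of_subset h1)

theorem exists_scale [WellFoundedLT I] (hI : ∀ i : I, (Iio i).Countable) (g : I → ℕ → ℕ)
    (hg : ∀ h : ℕ → ℕ, ∃ α, ∃ᶠ n in atTop, h n < g α n) : Nonempty (Scale I) := by
  obtain ⟨e, h1, h2⟩ := exists_coherent hI
  obtain ⟨f, hf⟩ := exists_rec (P := ℕ → ℕ) hI (fun i S f => Monotone f ∧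
    (∀ᶠ n in atTop, g i n < f n) ∧ ∀ s ∈ S, ∀ᶠ n in atTop, s n < f n)
    fun i S hS => exists_dominating hS (g i)
  refine ⟨⟨f, e, fun α => (hf α).1, fun α β h => (hf β).2.2 _ ⟨α, h, rfl⟩, fun h => ?_, h1, h2⟩⟩
  obtain ⟨α, hα⟩ := hg h
  exact ⟨α, (hα.and_eventually (hf α).2.1).mono fun n hn => hn.1.trans hn.2⟩

namespace Scale

variable (s : Scale I)

/-- `α` is a term of the sequence attached to `β`, branching off at level `k` -/
def H (β α : I) (k : ℕ) : Prop :=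
  α < β ∧ (∀ j < k, s.f α j = s.f β j) ∧ s.f α k ≠ s.f β k ∧ s.e β α ≤ s.f β k

/-- membership in the basic neighbourhoods -/
inductive Mem : I → I → ℕ → Prop
  | top (β n) : Mem β β n
  | step {t α β n k} : s.H β α k → n ≤ k → Mem t α (k + 1) → Mem t β n

variable {s}

theorem split {α β : I} (h : α ≠ β) :
    ∃ k, (∀ j < k, s.f α j = s.f β j) ∧ s.f α k ≠ s.f β k := by
  classical
  have h1 : ∃ k, s.f α k ≠ s.f β k := by
    rcases lt_or_gt_of_ne h with h | h
    · exact (s.lt _ _ h).exists.imp fun k hk => hk.ne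
    · exact (s.lt _ _ h).exists.imp fun k hk => hk.ne'
  exact ⟨Nat.find h1, fun j hj => not_not.1 (Nat.find_min h1 hj), Nat.find_spec h1⟩

theorem Mem.le {t β : I} {n : ℕ} (h : s.Mem t β n) : t ≤ β := by
  induction h with
  | top => exact le_rfl
  | step h _ _ ih => exact ih.trans h.1.le

theorem Mem.agree {t β : I} {n : ℕ} (h : s.Mem t β n) : ∀ j < n, s.f t j = s.f β j := by
  induction h with
  | top => exact fun _ _ => rfl
  | step h hn _ ih => exact fun j hj => (ih j (by omega)).trans (h.2.1 j (by omega))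

theorem mem_iff {t β : I} {n : ℕ} :
    s.Mem t β n ↔ t = β ∨ ∃ α k, s.H β α k ∧ n ≤ k ∧ s.Mem t α (k + 1) := by
  constructor
  · intro h
    cases h with
    | top => exact Or.inl rfl
    | step h1 h2 h3 => exact Or.inr ⟨_, _, h1, h2, h3⟩
  · rintro (rfl | ⟨α, k, h1, h2, h3⟩)
    · exact Mem.top _ _
    · exact Mem.step h1 h2 h3

theorem Mem.mono {t β : I} {n n' : ℕ} (h : s.Mem t β n') (hn : n ≤ n') : s.Mem t β n := by
  rcases mem_iff.1 h with rfl | ⟨α, k, h1, h2, h3⟩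
  · exact Mem.top _ _
  · exact Mem.step h1 (hn.trans h2) h3

theorem Mem.nhd {t β : I} {n : ℕ} (h : s.Mem t β n) :
    ∀ᶠ m in atTop, ∀ x, s.Mem x t m → s.Mem x β n := by
  induction h with
  | top n => exact (eventually_ge_atTop n).mono fun m hm x hx => hx.mono hm
  | step h hn _ ih => exact ih.mono fun m hm x hx => Mem.step h hn (hm x hx)

theorem finite_H (β : I) (k : ℕ) : {p : I × ℕ | s.H β p.1 p.2 ∧ p.2 ≤ k}.Finite :=
  ((s.fin β (s.f β k)).prod (finite_Iic k)).subset fun _ hp =>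
    ⟨⟨hp.1.1, hp.1.2.2.2.trans (s.mono β hp.2)⟩, hp.2⟩

variable [WellFoundedLT I]

theorem not_mem_nhd {t β : I} {n : ℕ} (h : ¬ s.Mem t β n) :
    ∀ᶠ m in atTop, ∀ x, s.Mem x t m → ¬ s.Mem x β n := by
  induction β using WellFoundedLT.induction generalizing n with
  | ind β ih =>
    obtain ⟨k, -, hk⟩ := split (s := s) (show t ≠ β from fun h' => h (h' ▸ Mem.top _ _))
    have h1 : ∀ᶠ m in atTop, ∀ p ∈ {p : I × ℕ | s.H β p.1 p.2 ∧ p.2 ≤ k}, n ≤ p.2 →
        ∀ x, s.Mem x t m → ¬ s.Mem x p.1 (p.2 + 1) := by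
      rw [eventually_all_finite (finite_H β k)]
      intro p hp
      by_cases hn : n ≤ p.2
      · exact (ih p.1 hp.1.1 fun h' => h (Mem.step hp.1 hn h')).mono fun m hm _ => hm
      · exact Eventually.of_forall fun m h' => absurd h' hn
    filter_upwards [h1, eventually_gt_atTop k] with m hm hm' x hx hx'
    have h2 := hx.agree k hm'
    rcases mem_iff.1 hx' with rfl | ⟨α, j, h3, h4, h5⟩
    · exact hk h2.symm
    · rcases le_or_gt j k with h6 | h6
      · exact hm (α, j) ⟨h3, h6⟩ h4 x hx h5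
      · exact hk (h2.symm.trans ((h5.agree k (by omega)).trans (h3.2.1 k h6)))

open Classical in
/-- the row of a point -/
noncomputable def row (s : Scale I) (t : I) (γ : I × ℕ) : Bool := decide (s.Mem t γ.1 γ.2)

omit [WellFoundedLT I] in
theorem row_true {t : I} {γ : I × ℕ} : s.row t γ = true ↔ s.Mem t γ.1 γ.2 := by simp [row]

theorem row_nhd (t : I) (S : Finset (I × ℕ)) :
    ∀ᶠ m in atTop, ∀ γ ∈ S, ∀ x, s.Mem x t m → s.row x γ = s.row t γ := by
  rw [eventually_all_finset]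
  intro γ _
  by_cases h : s.Mem t γ.1 γ.2
  · exact h.nhd.mono fun m hm x hx => by rw [row_true.2 h, row_true.2 (hm x hx)]
  · exact (not_mem_nhd h).mono fun m hm x hx => by simp [row, h, hm x hx]

/-- the compact space -/
def KS (s : Scale I) : Set (I × ℕ → Bool) := insert (fun _ => false) (range s.row)

theorem isClosed_KS : IsClosed s.KS := by
  classical
  refine isClosed_of_closure_subset fun ρ hρ => ?_
  have h1 : ∀ S : Set (I × ℕ), S.Finite → ∀ γ₀ ∈ S, ρ γ₀ = true →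
      ∃ x, ∀ γ ∈ S, s.row x γ = ρ γ := by
    intro S hS γ₀ h₀ h₀'
    obtain ⟨κ, h2, h3⟩ := mem_closure_iff.1 hρ (⋂ γ ∈ S, {κ | κ γ = ρ γ})
      (hS.isOpen_biInter fun γ _ => (isOpen_discrete {ρ γ}).preimage
        (continuous_apply (A := fun _ => Bool) γ))
      (by simp)
    simp only [mem_iInter, mem_ofPred_eq] at h2
    rcases h3 with rfl | ⟨x, rfl⟩
    · exact absurd ((h2 γ₀ h₀).trans h₀') (by simp)
    · exact ⟨x, h2⟩
  by_cases h0 : ∃ β n, ρ (β, n) = true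
  · obtain ⟨β, ⟨n, hn⟩, hβ⟩ := (wellFounded_lt (α := I)).has_min {β | ∃ n, ρ (β, n) = true} h0
    have h2 : ∀ m, n ≤ m → ρ (β, m) = true := by
      intro m hm
      induction m, hm using Nat.le_induction with
      | base => exact hn
      | succ m _ ih =>
        obtain ⟨x, hx⟩ := h1 (insert (β, m) (insert (β, m + 1)
          ((fun p : I × ℕ => (p.1, p.2 + 1)) '' {p : I × ℕ | s.H β p.1 p.2 ∧ p.2 ≤ m})))
          ((((finite_H β m).image _).insert _).insert _) _ (mem_insert _ _) ih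
        rw [← hx _ (mem_insert_of_mem _ (mem_insert _ _)), row_true]
        rcases mem_iff.1 (row_true.1 ((hx _ (mem_insert _ _)).trans ih)) with
          rfl | ⟨α, j, h3, h4, h5⟩
        · exact Mem.top _ _
        · rcases le_or_gt j m with h6 | h6
          · refine absurd h3.1 (hβ α ⟨j + 1, ?_⟩)
            rw [← hx _ (mem_insert_of_mem _ (mem_insert_of_mem _ ⟨(α, j), ⟨h3, h6⟩, rfl⟩))]
            exact row_true.2 h5
          · exact Mem.step h3 h6 h5
    refine Or.inr ⟨β, funext fun γ => ?_⟩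
    obtain ⟨m, h3, h4⟩ := ((row_nhd (s := s) β {γ}).and (eventually_ge_atTop n)).exists
    obtain ⟨x, hx⟩ := h1 {(β, m), γ} (toFinite _) _ (mem_insert _ _) (h2 m h4)
    rw [← hx γ (by simp)]
    exact (h3 γ (by simp) x (row_true.1 ((hx _ (mem_insert _ _)).trans (h2 m h4)))).symm
  · push Not at h0
    exact Or.inl (funext fun γ => by simpa using h0 γ.1 γ.2)

instance : CompactSpace s.KS := isCompact_iff_compactSpace.1 isClosed_KS.isCompact

instance : Nonempty s.KS := ⟨⟨_, mem_insert _ _⟩⟩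

/-- the columns -/
def col (s : Scale I) (γ : I × ℕ) : C(s.KS, Bool) :=
  ⟨fun κ => κ.1 γ, (continuous_apply γ).comp continuous_subtype_val⟩

theorem iso_KS : Iso (id : s.KS → s.KS) := by
  intro S hS
  by_cases h : ∃ t, ∃ κ ∈ S, κ.1 = s.row t
  · obtain ⟨t, ⟨κ, h1, h2⟩, ht⟩ := (wellFounded_lt (α := I)).has_min
      {t | ∃ κ ∈ S, κ.1 = s.row t} h
    have h3 : ∀ z ∈ s.col (t, 0) ⁻¹' {true} ∩ S, z.1 = s.row t := by
      rintro ⟨z, rfl | ⟨x, rfl⟩⟩ ⟨hz, hz'⟩
      · exact absurd hz (by simp [col])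
      · rw [le_antisymm (row_true.1 hz).le (not_lt.1 (ht x ⟨_, hz', rfl⟩))]
    refine ⟨s.col (t, 0) ⁻¹' {true}, (isOpen_discrete _).preimage (s.col _).continuous,
      ⟨κ, ?_, h1⟩, fun z hz z' hz' => Subtype.ext ((h3 z hz).trans (h3 z' hz').symm)⟩
    change κ.1 (t, 0) = true
    rw [h2]
    exact row_true.2 (Mem.top _ _)
  · push Not at h
    have h3 : ∀ z ∈ S, z.1 = fun _ => false := by
      rintro ⟨z, rfl | ⟨x, rfl⟩⟩ hz
      · rfl
      · exact absurd rfl (h x _ hz)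
    exact ⟨univ, isOpen_univ, by simpa using hS, fun z hz z' hz' =>
      Subtype.ext ((h3 z hz.2).trans (h3 z' hz'.2).symm)⟩

omit [WellFoundedLT I] in
theorem col_sep (i j : I) (h : i ≠ j) : ∃ t, s.col (i, 0) t ≠ s.col (j, 0) t := by
  wlog hij : i < j generalizing i j
  · obtain ⟨t, ht⟩ := this j i h.symm (lt_of_le_of_ne (not_lt.1 hij) h.symm)
    exact ⟨t, ht.symm⟩
  refine ⟨⟨s.row j, Or.inr ⟨j, rfl⟩⟩, fun h1 => ?_⟩
  have h2 : s.row j (i, 0) = s.row j (j, 0) := h1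
  exact absurd (row_true.1 (h2.trans (row_true.2 (Mem.top _ _)))).le (not_le.2 hij)

omit [WellFoundedLT I] in
theorem exists_above [Uncountable I] (hI : ∀ i : I, (Iio i).Countable) {D : Set I}
    (hD : D.Countable) : ∃ δ, ∀ d ∈ D, d < δ := by
  by_contra h
  push Not at h
  refine not_countable_univ ((hD.biUnion fun d _ => (hI d).insert d).mono fun δ _ => ?_)
  obtain ⟨d, h1, h2⟩ := h δ
  exact mem_biUnion h1 h2.eq_or_lt

omit [WellFoundedLT I] in
theorem key [Uncountable I] (hI : ∀ i : I, (Iio i).Countable) {ι : Type} [Fintype ι] {J : Set I}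
    (hJ : ¬ J.Countable) (x : I → ι → I) (hx : ∀ i δ, {β | β ∈ J ∧ x β i ≤ δ}.Countable) (m : ℕ) :
    ∃ α ∈ J, ∃ β ∈ J, α < β ∧ ∀ i, s.Mem (x α i) (x β i) m := by
  classical
  have hne : Nonempty I := inferInstance
  have h1 : ∀ p : Σ k : ℕ, ι → Fin k → ℕ, ∃ a, (∃ β ∈ J, ∀ i j, s.f (x β i) j.1 = p.2 i j) →
      a ∈ J ∧ ∀ i j, s.f (x a i) j.1 = p.2 i j := by
    intro p
    by_cases h : ∃ β ∈ J, ∀ i j, s.f (x β i) j.1 = p.2 i j
    · exact h.imp fun a ha _ => ha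
    · exact ⟨Classical.arbitrary I, fun h' => absurd h' h⟩
  choose a ha using h1
  obtain ⟨δ, hδ⟩ := exists_above hI ((countable_range a).union
    (countable_range fun q : (Σ k : ℕ, ι → Fin k → ℕ) × ι => x (a q.1) q.2))
  have big : ∀ {J' : Set I}, ¬ J'.Countable → J' ⊆ J → ∀ d,
      ¬ {β | β ∈ J' ∧ d < β ∧ ∀ i, d < x β i}.Countable := by
    intro J' h1 h2 d h3
    refine h1 (((h3.union ((hI d).insert d)).union (countable_iUnion fun i => hx i d)).mono
      fun β hβ => ?_)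
    by_contra h4
    simp only [mem_union, not_or, mem_iUnion, not_exists, mem_ofPred_eq, mem_insert_iff, mem_Iio,
      not_and, not_le] at h4
    exact h4.1.1 hβ (lt_of_le_of_ne (not_lt.1 h4.1.2.2) (Ne.symm h4.1.2.1))
      fun i => h4.2 i (h2 hβ)
  have hc : Countable {T : Set (I × ℕ) | T.Finite ∧ T ⊆ Iio δ ×ˢ univ} :=
    (countable_ofPred_finite_subset ((hI δ).prod countable_univ)).to_subtype
  obtain ⟨⟨E, σ⟩, hJ₂⟩ := exists_fiber
    (C := (ι → {T : Set (I × ℕ) | T.Finite ∧ T ⊆ Iio δ ×ˢ univ}) × (ι → Fin m → ℕ))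
    (big hJ subset_rfl δ) fun β => (fun i => if h : δ < x β i then
      ⟨(fun α => (α, s.e (x β i) α)) '' {α | α < δ ∧ s.e δ α ≠ s.e (x β i) α},
        (s.coh _ _ h).image _, by rintro _ ⟨α, hα, rfl⟩; exact ⟨hα.1, mem_univ _⟩⟩
      else ⟨∅, finite_empty, empty_subset _⟩, fun i j => s.f (x β i) j.1)
  set J₂ := {β | β ∈ {β | β ∈ J ∧ δ < β ∧ ∀ i, δ < x β i} ∧ _} with hJ₂'
  have h2 : ∀ β ∈ J₂, ∀ β' ∈ J₂, ∀ i, (∀ α, α < δ → s.e (x β i) α = s.e (x β' i) α) ∧
      ∀ j < m, s.f (x β i) j = s.f (x β' i) j := by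
    intro β hβ β' hβ' i
    obtain ⟨h3, h4⟩ := Prod.mk.inj (hβ.2.trans hβ'.2.symm)
    refine ⟨fun α hα => ?_, fun j hj => congrFun (congrFun h4 i) ⟨j, hj⟩⟩
    have h5 := congrFun h3 i
    simp only [dif_pos (hβ.1.2.2 i), dif_pos (hβ'.1.2.2 i), Subtype.mk.injEq] at h5
    by_cases h6 : s.e δ α = s.e (x β i) α
    · by_cases h7 : s.e δ α = s.e (x β' i) α
      · exact h6.symm.trans h7
      · obtain ⟨α', -, h8⟩ := h5.ge ⟨α, ⟨hα, h7⟩, rfl⟩
        obtain ⟨rfl, h9⟩ := Prod.mk.inj h8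
        exact h9
    · obtain ⟨α', -, h8⟩ := h5.le ⟨α, ⟨hα, h6⟩, rfl⟩
      obtain ⟨rfl, h9⟩ := Prod.mk.inj h8
      exact h9.symm
  obtain ⟨k₀, hk₀⟩ : ∃ k₀, ∀ r, ∃ β ∈ J₂, ∀ i, r ≤ s.f (x β i) k₀ := by
    by_contra h
    push Not at h
    choose g hg using h
    obtain ⟨α₀, h3⟩ := s.unb g
    obtain ⟨β, h4, -, h5⟩ : {β | β ∈ J₂ ∧ α₀ < β ∧ ∀ i, α₀ < x β i}.Nonempty := by
      by_contra h4
      exact big hJ₂ (fun β hβ => hβ.1.1) α₀ (not_nonempty_iff_eq_empty.1 h4 ▸ countable_empty)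
    obtain ⟨k, h6, h7⟩ := (h3.and_eventually (eventually_all.2 fun i => s.lt _ _ (h5 i))).exists
    obtain ⟨i, h8⟩ := hg k β h4
    linarith [h7 i]
  choose b hb hb' using hk₀
  let U := hyperfilter ℕ
  have h3 : ∀ i, ∃ k, Tendsto (fun r => s.f (x (b r) i) k) U atTop := fun i =>
    ⟨k₀, (tendsto_atTop_mono (fun r => hb' r i) tendsto_id).mono_left Nat.hyperfilter_le_atTop⟩
  have h4 : ∀ i j, j < Nat.find (h3 i) → ∃ v, ∀ᶠ r in U, s.f (x (b r) i) j = v := by
    intro i j hj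
    have h5 := Nat.find_min (h3 i) hj
    rw [tendsto_atTop] at h5
    push Not at h5
    obtain ⟨R, hR⟩ := h5
    have h6 : ∀ᶠ r in U, ∃ v ∈ Iio R, s.f (x (b r) i) j = v :=
      hR.mono fun r hr => ⟨_, hr, rfl⟩
    obtain ⟨v, -, hv⟩ := (Ultrafilter.eventually_exists_mem_iff (finite_Iio R)).1 h6
    exact ⟨v, hv⟩
  choose! v hv using h4
  have h5 : ∀ᶠ r in U, ∀ i, ∀ j ∈ Iio (Nat.find (h3 i)), s.f (x (b r) i) j = v i j :=
    eventually_all.2 fun i => (eventually_all_finite (finite_Iio _)).2 fun j hj => hv i j hj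
  obtain ⟨r₀, hr₀⟩ := h5.exists
  let k₁ := m + ∑ i, Nat.find (h3 i)
  let p : Σ k : ℕ, ι → Fin k → ℕ := ⟨k₁, fun i j => s.f (x (b r₀) i) j.1⟩
  obtain ⟨h6, h7⟩ := ha p ⟨b r₀, (hb r₀).1.1, fun _ _ => rfl⟩
  have h8 : ∀ᶠ r in U, ∀ i, s.e (x (b r₀) i) (x (a p) i) ≤ s.f (x (b r) i) (Nat.find (h3 i)) :=
    eventually_all.2 fun i => (Nat.find_spec (h3 i)).eventually (eventually_ge_atTop _)
  obtain ⟨r, h9, h10⟩ := (h5.and h8).exists
  refine ⟨a p, h6, b r, (hb r).1.1, (hδ _ (Or.inl ⟨p, rfl⟩)).trans (hb r).1.2.1, fun i => ?_⟩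
  have c1 : x (a p) i < δ := hδ _ (Or.inr ⟨(p, i), rfl⟩)
  have c2 : x (a p) i < x (b r) i := c1.trans ((hb r).1.2.2 i)
  obtain ⟨k, c3, c4⟩ := split (s := s) c2.ne
  have c5 : Nat.find (h3 i) ≤ ∑ i, Nat.find (h3 i) :=
    Finset.single_le_sum (f := fun i => Nat.find (h3 i)) (fun _ _ => Nat.zero_le _)
      (Finset.mem_univ i)
  have c6 : m ≤ k := by
    by_contra h
    exact c4 ((h7 i ⟨k, show k < m + ∑ i, Nat.find (h3 i) by omega⟩).trans ((h2 _ (hb r₀) _ (hb r) i).2 k (by omega)))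
  have c7 : Nat.find (h3 i) ≤ k := by
    by_contra h
    exact c4 ((h7 i ⟨k, show k < m + ∑ i, Nat.find (h3 i) by omega⟩).trans
      ((hr₀ i k (not_le.1 h)).trans (h9 i k (not_le.1 h)).symm))
  refine Mem.step ⟨c2, c3, c4, ?_⟩ c6 (Mem.top _ _)
  rw [← (h2 _ (hb r₀) _ (hb r) i).1 _ c1]
  exact (h10 i).trans (s.mono _ c7)

theorem hs_col [Uncountable I] (hI : ∀ i : I, (Iio i).Countable) : HS s.col I := by
  classical
  intro ι _ J hJ t S
  have h1 : ∀ u : Finset ι, ∃ J' ⊆ J, ¬ J'.Countable ∧ ∀ i ∈ u,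
      (∀ β ∈ J', ∀ β' ∈ J', t β i = t β' i) ∨ ∃ x : I → I, (∀ β ∈ J', (t β i).1 = s.row (x β)) ∧
        ∀ δ, {β | β ∈ J' ∧ x β ≤ δ}.Countable := by
    intro u
    induction u using Finset.induction_on with
    | empty => exact ⟨J, subset_rfl, hJ, by simp⟩
    | insert i u _ ih =>
      obtain ⟨J', h1, h2, h3⟩ := ih
      have h4 : ∃ J'' ⊆ J', ¬ J''.Countable ∧ ((∀ β ∈ J'', ∀ β' ∈ J'', t β i = t β' i) ∨
          ∃ x : I → I, (∀ β ∈ J'', (t β i).1 = s.row (x β)) ∧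
            ∀ δ, {β | β ∈ J'' ∧ x β ≤ δ}.Countable) := by
        by_cases h : ∃ κ, ¬ {β | β ∈ J' ∧ (t β i).1 = κ}.Countable
        · obtain ⟨κ, h⟩ := h
          exact ⟨_, fun _ h => h.1, h, Or.inl fun β hβ β' hβ' =>
            Subtype.ext (hβ.2.trans hβ'.2.symm)⟩
        · push Not at h
          have h5 : ∀ β, ∃ x, ((t β i).1 ≠ fun _ => false) → (t β i).1 = s.row x := by
            intro β
            rcases (t β i).2 with h5 | ⟨x, h5⟩
            · exact ⟨β, fun h6 => absurd h5 h6⟩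
            · exact ⟨x, fun _ => h5.symm⟩
          choose x hx using h5
          refine ⟨{β | β ∈ J' ∧ (t β i).1 ≠ fun _ => false}, fun _ h => h.1, fun h6 => h2
            ((h6.union (h fun _ => false)).mono fun β hβ => ?_),
            Or.inr ⟨x, fun β hβ => hx β hβ.2, fun δ => ?_⟩⟩
          · by_cases h7 : (t β i).1 = fun _ => false
            · exact Or.inr ⟨hβ, h7⟩
            · exact Or.inl ⟨hβ, h7⟩
          · refine (((hI δ).insert δ).biUnion fun y _ => h (s.row y)).mono fun β hβ => ?_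
            exact mem_biUnion hβ.2.eq_or_lt ⟨hβ.1.1, hx β hβ.1.2⟩
      obtain ⟨J'', h5, h6, h7⟩ := h4
      refine ⟨J'', h5.trans h1, h6, fun j hj => ?_⟩
      rcases Finset.mem_insert.1 hj with rfl | hj
      · exact h7
      · rcases h3 j hj with h8 | ⟨x, h8, h9⟩
        · exact Or.inl fun β hβ β' hβ' => h8 β (h5 hβ) β' (h5 hβ')
        · exact Or.inr ⟨x, fun β hβ => h8 β (h5 hβ), fun δ =>
            (h9 δ).mono fun β hβ => And.intro (h5 hβ.1) hβ.2⟩
  obtain ⟨J', h1, h2, h3⟩ := h1 Finset.univ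
  have h4 := fun i : {i // ¬ ∀ β ∈ J', ∀ β' ∈ J', t β i = t β' i} =>
    (h3 i.1 (Finset.mem_univ _)).resolve_left i.2
  choose x hx hx' using h4
  choose m hm using fun β => (eventually_all.2 fun i => row_nhd (s := s) (x i β) (S β)).exists
  obtain ⟨m₀, h5⟩ := exists_fiber h2 m
  obtain ⟨α, a1, β, b1, h6, h7⟩ := key (s := s) hI h5 (fun β i => x i β)
    (fun i δ => (hx' i δ).mono fun β hβ => And.intro hβ.1.1 hβ.2) m₀
  refine ⟨α, h1 a1.1, β, h1 b1.1, h6, fun i γ hγ => ?_⟩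
  by_cases h : ∀ β ∈ J', ∀ β' ∈ J', t β i = t β' i
  · rw [h α a1.1 β b1.1]
  · change (t α i).1 γ = (t β i).1 γ
    rw [hx ⟨i, h⟩ α a1.1, hx ⟨i, h⟩ β b1.1]
    exact hm β ⟨i, h⟩ γ hγ _ (b1.2 ▸ h7 ⟨i, h⟩)

end Scale

end Pool.Agent.P.MP_f49e60_an
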